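import Pool.Agent.W2helper48.JV.CycL
import Pool.Agent.W2helper48.JT.DblG

/-!
# Cyclic covers: the global theorem
-/

set_option autoImplicit false
set_option linter.unusedSectionVars false

namespace Pool.Agent.W2helper48.JV

open Finset Filter Function MeasureTheory ProbabilityTheory
open Q282.CL
open Q282.GK (kbox)
open Q285HS (FewBad lln IV)
open Pool.Agent.Y722.HS (Mon mev form)
open Pool.Agent.W2helper48.JT
open scoped NNReal

/-- the normalised sum for all `p` -/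
noncomputable def trC (l n δ j p : ℕ) (c : Mon n δ → ZMod p) : ℝ :=
  open Classical in
  if h : p.Prime ∧ l ≠ p then
    haveI : Fact p.Prime := ⟨h.1⟩
    TC l j c
  else 0

lemma trC_eq (l n δ j p : ℕ) [hp : Fact p.Prime] (h2 : l ≠ p) (c : Mon n δ → ZMod p) : trC l n δ j p c = TC l j c := by
  unfold trC
  rw [dif_pos ⟨hp.out, h2⟩]

lemma trC_abs (l n δ D : ℕ) (hl : 1 ≤ l) (j : ℕ) (hj : j ∈ Icc 1 D) (p : ℕ) (hp : p.Prime) (c : Mon n δ → ZMod p) :
    |trC l n δ j p c| ≤ 2 * l * (p : ℝ) ^ (D * n) := by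
  have hF : Fact p.Prime := ⟨hp⟩
  rw [mem_Icc] at hj
  have hp1 : (1 : ℝ) ≤ p := by exact_mod_cast hp.one_lt.le
  have hl0 : (0 : ℝ) ≤ l := Nat.cast_nonneg l
  by_cases h2 : l = p
  · have : trC l n δ j p c = 0 := by
      unfold trC
      rw [dif_neg fun h => h.2 h2]
    rw [this, abs_zero]
    positivity
  rw [trC_eq l n δ j p h2]
  have hjne : j ≠ 0 := by omega
  have hb1 : 1 ≤ sD p n j := one_le_pow₀ (one_lt_sp p).le
  unfold TC
  rw [abs_div, abs_of_pos (by linarith : 0 < sD p n j)]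
  refine (div_le_self (abs_nonneg _) hb1).trans ?_
  have h3 : |∑ v ∈ j.divisors.biUnion fun d => MM n p d, rc l j (vl c v)| ≤ l * ((j.divisors.biUnion fun d => MM n p d).card : ℝ) := by
    refine (abs_sum_le_sum_abs _ _).trans ((sum_le_sum fun v _ => rc_abs l hl j _).trans (le_of_eq ?_))
    rw [sum_const, nsmul_eq_mul, mul_comm]
  refine h3.trans ?_
  have h4 : ((j.divisors.biUnion fun d => MM n p d).card : ℝ) ≤ ∑ i ∈ range (n + 1), ((p : ℝ) ^ j) ^ i := by
    have h5 : (j.divisors.biUnion fun d => MM n p d).card ≤ ∑ i ∈ range (n + 1), (p ^ j) ^ i := by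
      rw [← card_div (n := n) (p := p) j hjne]
      exact card_biUnion_le
    exact_mod_cast h5
  have h5 := geo_le ((p : ℝ) ^ j) (two_le_pj j hjne) n
  have h6 : ((p : ℝ) ^ j) ^ n ≤ (p : ℝ) ^ (D * n) := by
    rw [← pow_mul]
    exact pow_le_pow_right₀ hp1 (Nat.mul_le_mul_right _ hj.2)
  rw [sum_range_succ] at h4
  have h7 : ((j.divisors.biUnion fun d => MM n p d).card : ℝ) ≤ 2 * (p : ℝ) ^ (D * n) := by linarith
  calc (l : ℝ) * ((j.divisors.biUnion fun d => MM n p d).card : ℝ) ≤ l * (2 * (p : ℝ) ^ (D * n)) := mul_le_mul_of_nonneg_left h7 hl0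
    _ = _ := by ring

/-- the singular forms; everything at the prime `l` -/
def BadC (l n δ : ℕ) (p : ℕ) : Set (Mon n δ → ZMod p) := {u | l = p ∨ u ∈ BadH n δ p}

lemma fewBadC (l n δ : ℕ) (hδ : 1 ≤ δ) : FewBad (BadC l n δ) (δ + l + 1) (Pool.Agent.Y722.HS.Delta n δ).totalDegree := by
  intro p hp hpp
  have h1 := fewBadH n δ hδ p hp (by omega)
  have h2 : BadC l n δ p = BadH n δ p := by
    ext u
    unfold BadC
    constructor
    · rintro (h | h)
      · omega
      · exact h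
    · exact fun h => Or.inr h
  rw [h2]
  exact h1

/-- **cyclic covers**: for a sign `s = 1` or `s = -1` -/
theorem final_C (l : ℕ) (hl : l.Prime) (hl2 : l ≠ 2) (n δ : ℕ) (hn : 1 ≤ n) (hδ : 1 ≤ δ) (s : ℝ) (hs : |s| = 1) (ε : ℝ) (hε : 0 < ε) (hε1 : ε ≤ 1) :
    ∃ κ₀ : ℝ, 0 < κ₀ ∧ ∃ C : ℝ, 1 ≤ C ∧ ∀ (w : ℕ → ℝ), (∀ p, |w p| ≤ 1) → ∀ (N : Mon n δ → ℤ) (L : Mon n δ → ℕ) (T' : ℝ), 0 < T' →
      (∀ i, T' ≤ L i) →
      ∀ X₀ : ℕ, 1 ≤ X₀ → ∃ E : Finset (Mon n δ → ℤ), E ⊆ kbox N L ∧ (E.card : ℝ) ≤ C * (X₀ : ℝ) ^ (-(ε / 2)) * ∏ i, (L i : ℝ) ∧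
      ∀ t ∈ kbox N L, t ∉ E → ∀ Y Y' : ℕ, Y ≤ Y' → X₀ ≤ Y' → (Y' : ℝ) ≤ T' ^ κ₀ → ∀ (r : ℕ) (f : Fin r → ℕ), (∀ i, f i ∈ Icc 1 (δ + 1)) →
        2 * ∑ i, f i ≤ δ + 1 →
        |∑ p ∈ JT.WW (BadC l n δ) Y Y' t, w p * (∏ i, (s * trC l n δ (f i) p (fun y => (t y : ZMod p))) -
          s ^ r * tgt (δ + 1) (VC l (p : ZMod l)) (MC l (p : ZMod l)) (fun _ : Fin r => ()) f)| ≤
          C * (Y' : ℝ) ^ (1 / 2 + ε / 2) := by
  classical
  have hne : NeZero l := ⟨hl.ne_zero⟩
  have hl1 : (1 : ℝ) ≤ l := by exact_mod_cast hl.one_lt.le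
  have hsr : ∀ r : ℕ, |s ^ r| = 1 := fun r => by rw [abs_pow, hs, one_pow]
  have hs2 : ∀ r : ℕ, (s ^ r) ^ 2 = 1 := fun r => by rw [← sq_abs, hsr, one_pow]
  obtain ⟨κ₀, hκ₀, C, hC, h⟩ := final2 (Θ := Unit) (fun _ j p c => s * trC l n δ j p c)
    (fun p r _ f => s ^ r * tgt (δ + 1) (VC l (p : ZMod l)) (MC l (p : ZMod l)) (fun _ : Fin r => ()) f) (δ + 1) ((δ + 1) * n) (2 * l) (by linarith)
    (fun _ j hj p hp c => by
      rw [abs_mul, hs, one_mul]
      exact trC_abs l n δ (δ + 1) hl.one_lt.le j hj p hp c)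
    (fun r _ f hf hfD => by
      obtain ⟨C, hC1, hC⟩ := local_C l hl hl2 n δ (δ + 1) hn le_rfl f hf hfD
      obtain ⟨C', hC'⟩ : ∃ C' : ℝ, C' = C + ∑ a : ZMod l, |tgt (δ + 1) (VC l a) (MC l a) (fun _ : Fin r => ()) f| := ⟨_, rfl⟩
      have hle : ∀ a : ZMod l, |tgt (δ + 1) (VC l a) (MC l a) (fun _ : Fin r => ()) f| ≤ C' := fun a => by
        have := single_le_sum (f := fun a : ZMod l => |tgt (δ + 1) (VC l a) (MC l a) (fun _ : Fin r => ()) f|) (fun _ _ => abs_nonneg _) (mem_univ a)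
        rw [hC']
        linarith
      have hCC : C ≤ C' := by
        have : 0 ≤ ∑ a : ZMod l, |tgt (δ + 1) (VC l a) (MC l a) (fun _ : Fin r => ()) f| := sum_nonneg fun _ _ => abs_nonneg _
        rw [hC']
        linarith
      refine ⟨C', l + 1, fun p hp => ⟨?_, fun hp3 => ?_⟩⟩
      · rw [abs_mul, hsr, one_mul]
        exact hle _
      · have : Fact p.Prime := ⟨hp⟩
        have hp2 : l ≠ p := by omega
        obtain ⟨_, h1, h2⟩ := hC p hp2
        have h3 : ∀ c : Mon n δ → ZMod p, ∏ i, (s * trC l n δ (f i) p c) = s ^ r * ∏ i, TC l (f i) c := by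
          intro c
          rw [prod_mul_distrib, prod_const, card_univ, Fintype.card_fin]
          congr 1
          exact prod_congr rfl fun i _ => trC_eq l n δ (f i) p hp2 c
        constructor
        · rw [mn_eq (fun (p : ℕ) (c : Mon n δ → ZMod p) => ∏ i, (s * trC l n δ (f i) p c))]
          simp only [h3]
          rw [av_mul, ← mul_sub, abs_mul, hsr, one_mul]
          rw [mul_one_div] at h1
          exact h1.trans (div_le_div_of_nonneg_right hCC (Real.sqrt_nonneg _))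
        · rw [mn_eq (fun (p : ℕ) (c : Mon n δ → ZMod p) => (∏ i, (s * trC l n δ (f i) p c)) ^ 2)]
          simp only [h3, mul_pow, hs2, one_mul]
          exact h2.trans hCC) (BadC l n δ) _ _ (fewBadC l n δ hδ) ε hε hε1
  refine ⟨κ₀, hκ₀, C, hC, fun w hw N L T' hT hTL X₀ hX₀ => ?_⟩
  obtain ⟨E, hE1, hE2, hE3⟩ := h w hw N L T' hT hTL X₀ hX₀
  exact ⟨E, hE1, hE2, fun t ht hnt Y Y' hYY hY hYT r f hf hfD => hE3 t ht hnt Y Y' hYY hY hYT r (fun _ => ()) f hf hfD⟩

section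

variable {p : ℕ} [hp : Fact p.Prime] {n δ : ℕ}

/-- the points of the cyclic cover over the Galois field -/
lemma card_C (l : ℕ) (j : ℕ) (hj : j ≠ 0) (t : Mon n δ → ℤ) :
    (Nat.card {x : (Fin (n + 1) → GaloisField p j) × GaloisField p j // Nrm x.1 ∧ x.2 ^ l = MvPolynomial.aeval x.1 (form t)} : ℝ) =
      ∑ i ∈ range (n + 1), ((p : ℝ) ^ j) ^ i + ∑ v ∈ j.divisors.biUnion fun d => MM n p d, rc l j (vl (fun ν => (t ν : ZMod p)) v) := by
  classical
  obtain ⟨U, hU⟩ : ∃ U : Finset (Fin (n + 1) → Om p), U = j.divisors.biUnion fun d => MM n p d := ⟨_, rfl⟩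
  have hUPS : ∀ w, w ∈ U ↔ w ∈ PS n p j := fun w => by rw [hU, PS_eq j hj, mem_coe]
  have h1 : Nat.card {x : (Fin (n + 1) → GaloisField p j) × GaloisField p j // Nrm x.1 ∧ x.2 ^ l = MvPolynomial.aeval x.1 (form t)} =
      {x : (Fin (n + 1) → GaloisField p j) × GaloisField p j | Nrm x.1 ∧ x.2 ^ l = MvPolynomial.aeval x.1 (form t)}.ncard := rfl
  have hsg : Injective (sg p j) := (sg p j).toRingHom.injective
  have hinj : Injective fun x : (Fin (n + 1) → GaloisField p j) × GaloisField p j => ((fun i => sg p j (x.1 i)), sg p j x.2) := by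
    intro x y h
    refine Prod.ext ?_ ?_
    · funext i
      exact hsg (congrFun (congrArg Prod.fst h) i)
    · exact hsg (congrArg Prod.snd h)
  have h2 : (fun x : (Fin (n + 1) → GaloisField p j) × GaloisField p j => ((fun i => sg p j (x.1 i)), sg p j x.2)) ''
      {x | Nrm x.1 ∧ x.2 ^ l = MvPolynomial.aeval x.1 (form t)} =
      ↑(U.biUnion fun v => (univ.filter fun y : EE p j => (y : Om p) ^ l = vl (fun ν => (t ν : ZMod p)) v).image fun y : EE p j => (v, (y : Om p))) := by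
    ext ⟨w, z⟩
    rw [mem_coe, mem_biUnion]
    constructor
    · rintro ⟨⟨v, y⟩, ⟨hv, hy⟩, h⟩
      have hw : (fun i => sg p j (v i)) = w := congrArg Prod.fst h
      have hz : sg p j y = z := congrArg Prod.snd h
      refine ⟨w, ?_, ?_⟩
      · rw [hUPS, ← hw]
        refine ⟨(nrm_map v).2 hv, ?_⟩
        rw [per_iff hj]
        exact fun i => (mem_range_sg j hj _).1 ⟨v i, rfl⟩
      · rw [mem_image]
        refine ⟨⟨sg p j y, (mem_range_sg j hj _).1 ⟨y, rfl⟩⟩, ?_, ?_⟩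
        · rw [mem_filter]
          refine ⟨mem_univ _, ?_⟩
          show sg p j y ^ l = _
          rw [← hw, ← sg_aeval, ← map_pow]
          exact congrArg _ hy
        · rw [← hz]
    · rintro ⟨v, hv, hvz⟩
      rw [mem_image] at hvz
      obtain ⟨y, hy, h⟩ := hvz
      have hvw : v = w := congrArg Prod.fst h
      have hyz : (y : Om p) = z := congrArg Prod.snd h
      subst hvw
      rw [hUPS] at hv
      obtain ⟨hv1, hv2⟩ := hv
      rw [per_iff hj] at hv2
      choose u hu using fun i => (mem_range_sg j hj (v i)).2 (hv2 i)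
      have h4 : (fun i => sg p j (u i)) = v := funext hu
      obtain ⟨x, hx⟩ := (mem_range_sg j hj (y : Om p)).2 y.2
      refine ⟨(u, x), ⟨?_, ?_⟩, ?_⟩
      · rw [← nrm_map, h4]
        exact hv1
      · apply hsg
        show sg p j (x ^ l) = sg p j (MvPolynomial.aeval u (form t))
        rw [sg_aeval, h4, map_pow, hx]
        exact (mem_filter.1 hy).2
      · show ((fun i => sg p j (u i)), sg p j x) = (v, z)
        rw [h4, hx, hyz]
  rw [h1, ← Set.ncard_image_of_injective _ hinj, h2, Set.ncard_coe_finset, card_biUnion]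
  · have h3 : ∀ v ∈ U, (((univ.filter fun y : EE p j => (y : Om p) ^ l = vl (fun ν => (t ν : ZMod p)) v).image fun y : EE p j => (v, (y : Om p))).card : ℝ) =
        1 + rc l j (vl (fun ν => (t ν : ZMod p)) v) := by
      intro v _
      rw [card_image_of_injective _ fun a b h => Subtype.ext (congrArg Prod.snd h)]
      unfold rc
      rw [add_sub_cancel]
    push_cast
    rw [sum_congr rfl h3, sum_add_distrib, sum_const, nsmul_eq_mul, mul_one, ← hU]
    congr 1
    have h4 : (U.card : ℝ) = ∑ i ∈ range (n + 1), ((p : ℝ) ^ j) ^ i := by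
      have h5 : U.card = ∑ i ∈ range (n + 1), (p ^ j) ^ i := by
        rw [← card_PS (n := n) (p := p) j hj, PS_eq j hj, Set.ncard_coe_finset, hU]
      rw [h5]
      push_cast
      rfl
    exact h4
  · intro v _ v' _ hne
    rw [Function.onFun, disjoint_left]
    intro x hx hx'
    rw [mem_image] at hx hx'
    obtain ⟨y, _, rfl⟩ := hx
    obtain ⟨y', _, h⟩ := hx'
    exact hne (congrArg Prod.fst h).symm

end

/-! ### the target as an integral -/

lemma gauss_shift (m : ℝ) (v : ℝ≥0) (k : ℕ) : ∫ y, (y + m) ^ k ∂(gaussianReal 0 v) = ∫ y, y ^ k ∂(gaussianReal m v) := by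
  have h1 := gaussianReal_map_add_const (μ := 0) (v := v) m
  rw [zero_add] at h1
  rw [← h1, integral_map (by fun_prop) (by fun_prop)]

lemma gauss_sign (s m : ℝ) (hs : s = 1 ∨ s = -1) (v : ℝ≥0) (k : ℕ) : s ^ k * ∫ y, y ^ k ∂(gaussianReal m v) = ∫ y, y ^ k ∂(gaussianReal (s * m) v) := by
  rcases hs with rfl | rfl
  · rw [one_pow, one_mul, one_mul]
  · rw [neg_one_mul, ← gaussianReal_map_neg, integral_map (by fun_prop) (by fun_prop), ← integral_const_mul]
    congr 1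
    funext x
    rw [← mul_pow, neg_one_mul]

lemma tg_unit {ι : Type} (V : ℕ → Unit → ℝ≥0) (M : ℕ → Unit → ℝ) (d : ℕ) (th : ι → Unit) (s : Finset ι) :
    tg V M d th s = ∫ y, y ^ s.card ∂(gaussianReal (M d ()) ((d : ℝ≥0) * V d ())) := by
  unfold tg
  have h1 : (fun x : Unit → ℝ => ∏ i ∈ s, (x (th i) + M d (th i))) = fun x => ∏ u : Unit, (x u + M d u) ^ s.card := by
    funext x
    rw [Fintype.prod_unique]
    rw [prod_congr rfl (g := fun _ => x default + M d default) fun i _ => rfl, prod_const]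
  rw [h1, integral_fintype_prod_eq_prod (fun (u : Unit) (y : ℝ) => (y + M d u) ^ s.card), Fintype.prod_unique, gauss_shift]

/-- the target for one function -/
theorem tgt_unit (J : ℕ) (V : ℕ → Unit → ℝ≥0) (M : ℕ → Unit → ℝ) {r : ℕ} (f : Fin r → Fin (J + 1)) (hf : ∀ i, 1 ≤ (f i : ℕ)) (s : ℝ) (hs : s = 1 ∨ s = -1) :
    s ^ r * tgt J V M (fun _ : Fin r => ()) (fun i => (f i : ℕ)) =
      ∫ x : Fin (J + 1) → ℝ, ∏ i, x (f i) ∂(Measure.pi fun d : Fin (J + 1) => gaussianReal (s * M (d : ℕ) ()) (((d : ℕ) : ℝ≥0) * V (d : ℕ) ())) := by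
  classical
  have h1 : (fun x : Fin (J + 1) → ℝ => ∏ i, x (f i)) = fun x => ∏ d : Fin (J + 1), x d ^ cnt (fun i => (f i : ℕ)) d := by
    funext x
    rw [← prod_fiberwise_of_maps_to (fun i _ => mem_univ (f i))]
    refine prod_congr rfl fun d _ => ?_
    rw [prod_congr rfl (g := fun _ => x d) fun i hi => by rw [(mem_filter.1 hi).2], prod_const]
    congr 1
    unfold cnt
    congr 1
    ext i
    rw [mem_filter, mem_filter]
    exact and_congr_right fun _ => Fin.ext_iff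
  rw [h1, integral_fintype_prod_eq_prod (fun (d : Fin (J + 1)) (y : ℝ) => y ^ cnt (fun i => (f i : ℕ)) d)]
  rw [prod_congr rfl fun (d : Fin (J + 1)) _ => (gauss_sign s (M (d : ℕ) ()) hs (((d : ℕ) : ℝ≥0) * V (d : ℕ) ()) (cnt (fun i => (f i : ℕ)) d)).symm]
  rw [Fin.prod_univ_eq_prod_range (fun d => s ^ cnt (fun i => (f i : ℕ)) d *
    ∫ y, y ^ cnt (fun i => (f i : ℕ)) d ∂(gaussianReal (M d ()) ((d : ℝ≥0) * V d ()))) (J + 1), prod_mul_distrib]
  have h3 : range (J + 1) = insert 0 (Icc 1 J) := by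
    ext i
    rw [mem_range, mem_insert, mem_Icc]
    omega
  have h4 : cnt (fun i => (f i : ℕ)) 0 = 0 := by
    unfold cnt
    rw [card_eq_zero, filter_eq_empty_iff]
    intro i _ h
    have h' : (f i : ℕ) = 0 := h
    have := hf i
    omega
  have h6 : ∏ d ∈ range (J + 1), ∫ y, y ^ cnt (fun i => (f i : ℕ)) d ∂(gaussianReal (M d ()) ((d : ℝ≥0) * V d ())) =
      tgt J V M (fun _ : Fin r => ()) (fun i => (f i : ℕ)) := by
    rw [h3, prod_insert (by simp), h4]
    simp only [pow_zero, integral_const, probReal_univ, smul_eq_mul, mul_one, one_mul]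
    unfold tgt
    refine prod_congr rfl fun d _ => ?_
    rw [tg_unit]
    rfl
  have h7 : ∏ d ∈ range (J + 1), s ^ cnt (fun i => (f i : ℕ)) d = s ^ r := by
    rw [prod_pow_eq_pow_sum]
    congr 1
    have h8 : ∀ i ∈ (univ : Finset (Fin r)), (fun i => (f i : ℕ)) i ∈ range (J + 1) := fun i _ => mem_range.2 (f i).2
    have h9 := card_eq_sum_card_fiberwise h8
    rw [card_univ, Fintype.card_fin] at h9
    exact h9.symm
  rw [h6, h7]

end Pool.Agent.W2helper48.JV
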