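import Pool.Agent.W2helper48.JT.Abs

/-!
# The abstract comparison
-/

set_option autoImplicit false
set_option linter.unusedSectionVars false

namespace Pool.Agent.W2helper48.JV

open Finset
open Q282.CL
open Pool.Agent.W2helper48.JT

/-- **the comparison of the products** -/
theorem cmp {r : ℕ} (C₁ : ℝ) (hC₁ : 1 ≤ C₁) :
    ∃ C : ℝ, 1 ≤ C ∧ ∀ (α : Type) [Fintype α] [Nonempty α] (X T Z V : Fin r → α → ℝ) (M : Fin r → ℝ) (τ ε : ℝ), 0 < ε → ε ≤ 1 → (∀ i, |M i| ≤ C₁) →
      |av (fun c => ∏ i, (X i c + M i)) - τ| ≤ C₁ * ε →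
      (∀ i c, 1 ≤ V i c) → (∀ i c, |X i c| ≤ Real.sqrt (V i c)) → av (fun c => ∏ i, V i c) ≤ C₁ →
      (∀ i c, |T i c - X i c - M i| ≤ C₁ * ε * Real.sqrt (V i c) + Z i c) →
      (∀ i, (∀ c, 0 ≤ Z i c ∧ Z i c ≤ C₁) ∧ av (fun c => Z i c ^ 2) ≤ C₁ * ε ^ 2) →
      |av (fun c => ∏ i, T i c) - τ| ≤ C * ε ∧ av (fun c => (∏ i, T i c) ^ 2) ≤ C := by
  obtain ⟨R, hR⟩ : ∃ R : ℝ, R = 2 + 3 * C₁ := ⟨_, rfl⟩
  have hR1 : 1 ≤ R := by
    rw [hR]
    linarith
  refine ⟨C₁ + r * (C₁ * R ^ r * C₁ + R ^ r * (C₁ * C₁)) + R ^ (2 * r) * C₁, ?_, ?_⟩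
  · have h1 : 0 ≤ r * (C₁ * R ^ r * C₁ + R ^ r * (C₁ * C₁)) + R ^ (2 * r) * C₁ := by positivity
    linarith
  intro α _ _ X T Z V M τ ε hε hε1 hM hmom hV1 hXV henv hT hZ
  have hsV1 : ∀ j c, 1 ≤ Real.sqrt (V j c) := fun j c => Real.one_le_sqrt.2 (hV1 j c)
  have hXη : ∀ j c, |X j c + M j| ≤ R * Real.sqrt (V j c) := by
    intro j c
    refine (abs_add_le _ _).trans ?_
    rw [hR]
    have h1 := hXV j c
    have h2 := hM j
    have h3 := hsV1 j c
    nlinarith
  have hTV : ∀ j c, |T j c| ≤ R * Real.sqrt (V j c) := by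
    intro j c
    have h1 : |T j c| ≤ |T j c - X j c - M j| + |X j c| + |M j| := by
      have h2 := abs_add_le (T j c - X j c - M j) (X j c)
      have h3 := abs_add_le (T j c - X j c - M j + X j c) (M j)
      have h4 : T j c - X j c - M j + X j c + M j = T j c := by ring
      rw [h4] at h3
      linarith
    refine h1.trans ?_
    rw [hR]
    have h2 := hT j c
    have h3 := hXV j c
    have h4 := hM j
    have h5 := hsV1 j c
    have h6 := ((hZ j).1 c).2
    have h7 : C₁ * ε * Real.sqrt (V j c) ≤ C₁ * Real.sqrt (V j c) := by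
      refine mul_le_mul_of_nonneg_right ?_ (by linarith)
      nlinarith
    nlinarith
  constructor
  · -- the mean
    have h1 : |av (fun c => ∏ i, T i c) - av (fun c => ∏ i, (X i c + M i))| ≤ r * (C₁ * R ^ r * C₁ + R ^ r * (C₁ * C₁)) * ε := by
      rw [← av_sub]
      refine (abs_av_le _).trans ?_
      have h2 : ∀ c, |∏ i, T i c - ∏ i, (X i c + M i)| ≤
          ∑ k : Fin r, (C₁ * ε * R ^ r * ∏ i, V i c + Z k c * (R ^ r * ∏ i, Real.sqrt (V i c))) := by
        intro c
        refine (prod_near univ _ _ (fun i => R * Real.sqrt (V i c)) (fun i _ => hTV _ c) (fun i _ => hXη _ c)).trans ?_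
        refine sum_le_sum fun k _ => ?_
        have h3 : |T k c - (X k c + M k)| ≤ C₁ * ε * Real.sqrt (V k c) + Z k c := by
          have := hT k c
          rwa [sub_sub] at this
        have h4 : 0 ≤ ∏ i ∈ univ.erase k, R * Real.sqrt (V i c) := prod_nonneg fun i _ => by positivity
        refine (mul_le_mul_of_nonneg_right h3 h4).trans ?_
        rw [add_mul]
        have h5 : ∏ i ∈ univ.erase k, R * Real.sqrt (V i c) ≤ R ^ r * ∏ i ∈ univ.erase k, Real.sqrt (V i c) := by
          rw [prod_mul_distrib, prod_const]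
          refine mul_le_mul_of_nonneg_right ?_ (prod_nonneg fun i _ => Real.sqrt_nonneg _)
          refine pow_le_pow_right₀ hR1 ?_
          rw [card_erase_of_mem (mem_univ k), card_univ, Fintype.card_fin]
          omega
        have h6 : Real.sqrt (V k c) * ∏ i ∈ univ.erase k, Real.sqrt (V i c) = ∏ i, Real.sqrt (V i c) :=
          mul_prod_erase univ (fun i => Real.sqrt (V i c)) (mem_univ k)
        have h7 : ∏ i, Real.sqrt (V i c) ≤ ∏ i, V i c := by
          refine prod_le_prod (fun i _ => Real.sqrt_nonneg _) fun i _ => ?_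
          have h8 := hV1 i c
          rw [Real.sqrt_le_left (by linarith)]
          nlinarith
        have h8 : ∏ i ∈ univ.erase k, Real.sqrt (V i c) ≤ ∏ i, Real.sqrt (V i c) := by
          rw [← h6]
          exact le_mul_of_one_le_left (prod_nonneg fun i _ => Real.sqrt_nonneg _) (hsV1 _ _)
        have hP0 : 0 ≤ ∏ i ∈ univ.erase k, Real.sqrt (V i c) := prod_nonneg fun i _ => Real.sqrt_nonneg _
        refine add_le_add ?_ ?_
        · calc C₁ * ε * Real.sqrt (V k c) * ∏ i ∈ univ.erase k, R * Real.sqrt (V i c) ≤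
                C₁ * ε * Real.sqrt (V k c) * (R ^ r * ∏ i ∈ univ.erase k, Real.sqrt (V i c)) := mul_le_mul_of_nonneg_left h5 (by positivity)
            _ = C₁ * ε * R ^ r * (Real.sqrt (V k c) * ∏ i ∈ univ.erase k, Real.sqrt (V i c)) := by ring
            _ = C₁ * ε * R ^ r * ∏ i, Real.sqrt (V i c) := by rw [h6]
            _ ≤ _ := mul_le_mul_of_nonneg_left h7 (by positivity)
        · refine mul_le_mul_of_nonneg_left (h5.trans ?_) ((hZ k).1 c).1
          exact mul_le_mul_of_nonneg_left h8 (by positivity)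
      refine (av_mono h2).trans ?_
      rw [av_sum]
      have h3 : ∀ k ∈ (univ : Finset (Fin r)), av (fun c => C₁ * ε * R ^ r * ∏ i, V i c + Z k c * (R ^ r * ∏ i, Real.sqrt (V i c))) ≤
          (C₁ * R ^ r * C₁ + R ^ r * (C₁ * C₁)) * ε := by
        intro k _
        rw [av_add, av_mul]
        have h4 : C₁ * ε * R ^ r * av (fun c => ∏ i, V i c) ≤ C₁ * ε * R ^ r * C₁ := mul_le_mul_of_nonneg_left henv (by positivity)
        have h5 := av_cs (Z k) fun c => R ^ r * ∏ i, Real.sqrt (V i c)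
        have h6 : (fun c => (R ^ r * ∏ i, Real.sqrt (V i c)) ^ 2) = fun c => (R ^ r) ^ 2 * ∏ i, V i c := by
          funext c
          rw [mul_pow, ← prod_pow]
          congr 1
          refine prod_congr rfl fun i _ => ?_
          rw [Real.sq_sqrt (by linarith [hV1 i c])]
        rw [h6, av_mul] at h5
        have h7 : Real.sqrt (av (fun c => Z k c ^ 2)) ≤ C₁ * ε := by
          rw [Real.sqrt_le_left (by positivity)]
          refine ((hZ k).2).trans ?_
          have : 0 ≤ ε ^ 2 := sq_nonneg _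
          nlinarith
        have h8 : Real.sqrt ((R ^ r) ^ 2 * av (fun c => ∏ i, V i c)) ≤ R ^ r * C₁ := by
          rw [Real.sqrt_le_left (by positivity), mul_pow]
          refine mul_le_mul_of_nonneg_left (henv.trans ?_) (by positivity)
          nlinarith
        have h9 : Real.sqrt (av (fun c => Z k c ^ 2)) * Real.sqrt ((R ^ r) ^ 2 * av (fun c => ∏ i, V i c)) ≤ (C₁ * ε) * (R ^ r * C₁) :=
          mul_le_mul h7 h8 (Real.sqrt_nonneg _) (by positivity)
        calc C₁ * ε * R ^ r * av (fun c => ∏ i, V i c) + av (fun c => Z k c * (R ^ r * ∏ i, Real.sqrt (V i c))) ≤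
              C₁ * ε * R ^ r * C₁ + (C₁ * ε) * (R ^ r * C₁) := add_le_add h4 (h5.trans h9)
          _ = _ := by ring
      refine (sum_le_sum h3).trans (le_of_eq ?_)
      rw [sum_const, card_univ, Fintype.card_fin, nsmul_eq_mul]
      ring
    have h2 := abs_sub_le (av (fun c => ∏ i, T i c)) (av (fun c => ∏ i, (X i c + M i))) τ
    have h3 : 0 ≤ R ^ (2 * r) * C₁ * ε := by positivity
    have h4 : (C₁ + r * (C₁ * R ^ r * C₁ + R ^ r * (C₁ * C₁)) + R ^ (2 * r) * C₁) * ε =
        C₁ * ε + r * (C₁ * R ^ r * C₁ + R ^ r * (C₁ * C₁)) * ε + R ^ (2 * r) * C₁ * ε := by ring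
    rw [h4]
    linarith
  · -- the second moment
    have h1 : ∀ c, (∏ i, T i c) ^ 2 ≤ R ^ (2 * r) * ∏ i, V i c := by
      intro c
      rw [← prod_pow]
      have h2 : ∀ i ∈ (univ : Finset (Fin r)), T i c ^ 2 ≤ R ^ 2 * V i c := by
        intro i _
        have h3 := hTV i c
        have h4 : T i c ^ 2 ≤ (R * Real.sqrt (V i c)) ^ 2 := by
          rw [← sq_abs]
          exact pow_le_pow_left₀ (abs_nonneg _) h3 2
        rwa [mul_pow, Real.sq_sqrt (by linarith [hV1 i c])] at h4
      refine (prod_le_prod (fun i _ => sq_nonneg _) h2).trans (le_of_eq ?_)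
      rw [prod_mul_distrib, prod_const, card_univ, Fintype.card_fin, ← pow_mul]
    refine (av_mono h1).trans ?_
    rw [av_mul]
    have h2 : R ^ (2 * r) * av (fun c => ∏ i, V i c) ≤ R ^ (2 * r) * C₁ := mul_le_mul_of_nonneg_left henv (by positivity)
    refine h2.trans ?_
    have h3 : 0 ≤ r * (C₁ * R ^ r * C₁ + R ^ r * (C₁ * C₁)) := by positivity
    linarith

end Pool.Agent.W2helper48.JV
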