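import Pool.Agent.W2helper48.JT.Dbl
import Mathlib.RingTheory.RootsOfUnity.AlgebraicallyClosed

/-!
# The numbers of the `l`-th roots in finite fields
-/

set_option autoImplicit false
set_option linter.unusedSectionVars false

namespace Pool.Agent.W2helper48.JV

open Finset Function
open Q282.CL
open Pool.Agent.W2helper48.JT

section

variable {p : ℕ} [hp : Fact p.Prime]

open Classical in
/-- the number of the `l`-th roots minus one -/
noncomputable def rc (l j : ℕ) (z : Om p) : ℝ := ((univ.filter fun y : EE p j => (y : Om p) ^ l = z).card : ℝ) - 1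

open Classical in
variable (p) in
/-- the number of the `l`-th roots of unity -/
noncomputable def mu (l j : ℕ) : ℕ := (univ.filter fun y : EE p j => (y : Om p) ^ l = 1).card

lemma EE_mul {j : ℕ} (hj : j ≠ 0) {x y : Om p} (hx : x ∈ EE p j) (hy : y ∈ EE p j) : x * y ∈ EE p j := by
  rw [mem_EE hj] at *
  rw [mul_pow, hx, hy]

lemma EE_pow {j : ℕ} (hj : j ≠ 0) {x : Om p} (hx : x ∈ EE p j) (k : ℕ) : x ^ k ∈ EE p j := by
  rw [mem_EE hj] at *
  rw [← pow_mul, mul_comm, pow_mul, hx]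

lemma EE_inv {j : ℕ} (hj : j ≠ 0) {x : Om p} (hx : x ∈ EE p j) : x⁻¹ ∈ EE p j := by
  rw [mem_EE hj] at *
  rw [inv_pow, hx]

lemma EE_one {j : ℕ} (hj : j ≠ 0) : (1 : Om p) ∈ EE p j := by
  rw [mem_EE hj, one_pow]

lemma EE_sub {d j : ℕ} (hj : j ≠ 0) (hdj : d ∣ j) {x : Om p} (hx : x ∈ EE p d) : x ∈ EE p j := by
  obtain ⟨k, rfl⟩ := hdj
  have hd : d ≠ 0 := fun h => hj (by rw [h, zero_mul])
  rw [mem_EE hd] at hx
  rw [mem_EE hj]
  exact pow_per hx k

lemma rts_le (l : ℕ) (hl : l ≠ 0) (z : Om p) (j : ℕ) [DecidablePred fun y : EE p j => (y : Om p) ^ l = z] :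
    (univ.filter fun y : EE p j => (y : Om p) ^ l = z).card ≤ l := by
  classical
  have h1 : ((univ.filter fun y : EE p j => (y : Om p) ^ l = z).image fun y : EE p j => (y : Om p)) ⊆ (Polynomial.nthRoots l z).toFinset := by
    intro x hx
    rw [mem_image] at hx
    obtain ⟨y, hy, rfl⟩ := hx
    rw [Multiset.mem_toFinset, Polynomial.mem_nthRoots (Nat.pos_of_ne_zero hl)]
    exact (mem_filter.1 hy).2
  have h2 := card_le_card h1
  rw [card_image_of_injective _ Subtype.val_injective] at h2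
  exact h2.trans ((Multiset.toFinset_card_le _).trans (Polynomial.card_nthRoots l z))

lemma rc_abs (l : ℕ) (hl : 1 ≤ l) (j : ℕ) (z : Om p) : |rc l j z| ≤ l := by
  classical
  unfold rc
  have h1 : ((univ.filter fun y : EE p j => (y : Om p) ^ l = z).card : ℝ) ≤ l := by exact_mod_cast rts_le l (by omega) z j
  have h2 : (0 : ℝ) ≤ (univ.filter fun y : EE p j => (y : Om p) ^ l = z).card := Nat.cast_nonneg _
  have h3 : (1 : ℝ) ≤ l := by exact_mod_cast hl
  rw [abs_le]
  constructor <;> linarith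

lemma rc_zero (l : ℕ) (hl : l ≠ 0) (j : ℕ) : rc (p := p) l j 0 = 0 := by
  classical
  unfold rc
  have h1 : (univ.filter fun y : EE p j => (y : Om p) ^ l = 0) = {0} := by
    ext y
    rw [mem_filter, mem_singleton]
    constructor
    · rintro ⟨_, h⟩
      exact Subtype.ext ((pow_eq_zero_iff hl).1 h)
    · rintro rfl
      exact ⟨mem_univ _, by simp [hl]⟩
  rw [h1, card_singleton]
  norm_num

/-- the number of the roots, if there is one -/
lemma rts_eq (l j : ℕ) (hj : j ≠ 0) (z : Om p) (hz : z ≠ 0) (hl : l ≠ 0) (y₀ : Om p) (hy₀ : y₀ ∈ EE p j) (h : y₀ ^ l = z)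
    [DecidablePred fun y : EE p j => (y : Om p) ^ l = z] : (univ.filter fun y : EE p j => (y : Om p) ^ l = z).card = mu p l j := by
  classical
  have hy0 : y₀ ≠ 0 := by
    rintro rfl
    exact hz (by rw [← h, zero_pow hl])
  unfold mu
  symm
  refine card_bij (fun u _ => (⟨y₀ * u, EE_mul hj hy₀ u.2⟩ : EE p j)) (fun u hu => ?_) (fun u _ u' _ huu => ?_) (fun y hy => ?_)
  · rw [mem_filter] at hu ⊢
    refine ⟨mem_univ _, ?_⟩
    show (y₀ * (u : Om p)) ^ l = z
    rw [mul_pow, hu.2, mul_one, h]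
  · have h1 : y₀ * (u : Om p) = y₀ * u' := congrArg Subtype.val huu
    exact Subtype.ext (mul_left_cancel₀ hy0 h1)
  · rw [mem_filter] at hy
    refine ⟨⟨y₀⁻¹ * y, EE_mul hj (EE_inv hj hy₀) y.2⟩, ?_, ?_⟩
    · rw [mem_filter]
      refine ⟨mem_univ _, ?_⟩
      show (y₀⁻¹ * (y : Om p)) ^ l = 1
      rw [mul_pow, inv_pow, h, hy.2, inv_mul_cancel₀ hz]
    · refine Subtype.ext ?_
      show y₀ * (y₀⁻¹ * (y : Om p)) = y
      rw [← mul_assoc, mul_inv_cancel₀ hy0, one_mul]

lemma rc_root (l j : ℕ) (hj : j ≠ 0) (z : Om p) (hz : z ≠ 0) (hl : l ≠ 0) (y₀ : Om p) (hy₀ : y₀ ∈ EE p j) (h : y₀ ^ l = z) :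
    rc l j z = (mu p l j : ℝ) - 1 := by
  classical
  unfold rc
  rw [rts_eq l j hj z hz hl y₀ hy₀ h]

lemma rc_none (l j : ℕ) (z : Om p) (h : ∀ y ∈ EE p j, y ^ l ≠ z) : rc l j z = -1 := by
  classical
  unfold rc
  have : (univ.filter fun y : EE p j => (y : Om p) ^ l = z) = ∅ := by
    rw [filter_eq_empty_iff]
    intro y _
    exact h y y.2
  rw [this]
  norm_num

/-- the number of the roots of unity -/
lemma mu_eq (l j : ℕ) (hl : l.Prime) (hlp : l ≠ p) (hj : j ≠ 0) : mu p l j = if l ∣ p ^ j - 1 then l else 1 := by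
  classical
  have hl0 : l ≠ 0 := hl.ne_zero
  have hq : 1 ≤ p ^ j := Nat.one_le_iff_ne_zero.2 (pow_ne_zero _ hp.out.ne_zero)
  split_ifs with h
  · -- all of them
    have : NeZero ((l : ℕ) : ZMod p) := ⟨by
      intro h0
      rw [ZMod.natCast_eq_zero_iff] at h0
      exact hlp ((Nat.prime_dvd_prime_iff_eq hp.out hl).1 h0).symm⟩
    obtain ⟨ζ, hζ⟩ := HasEnoughRootsOfUnity.exists_primitiveRoot (Om p) l
    have h1 := hζ.card_nthRootsFinset
    unfold mu
    refine Eq.trans ?_ h1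
    refine card_bij (fun y _ => (y : Om p)) (fun y hy => ?_) (fun y _ y' _ hyy => Subtype.ext hyy) (fun y hy => ?_)
    · rw [Polynomial.mem_nthRootsFinset (Nat.pos_of_ne_zero hl0)]
      exact (mem_filter.1 hy).2
    · rw [Polynomial.mem_nthRootsFinset (Nat.pos_of_ne_zero hl0)] at hy
      have h2 : y ∈ EE p j := by
        rw [mem_EE hj]
        obtain ⟨k, hk⟩ := h
        have h3 : p ^ j = l * k + 1 := by omega
        rw [h3, pow_succ, pow_mul, hy, one_pow, one_mul]
      exact ⟨⟨y, h2⟩, mem_filter.2 ⟨mem_univ _, hy⟩, rfl⟩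
  · -- only one
    unfold mu
    rw [card_eq_one]
    refine ⟨⟨1, EE_one hj⟩, ?_⟩
    ext y
    rw [mem_filter, mem_singleton]
    constructor
    · rintro ⟨_, hy⟩
      refine Subtype.ext ?_
      show (y : Om p) = 1
      have hy0 : (y : Om p) ≠ 0 := by
        intro h0
        rw [h0, zero_pow hl0] at hy
        exact zero_ne_one hy
      have h1 : (y : Om p) ^ (p ^ j - 1) = 1 := by
        have h2 := (mem_EE hj).1 y.2
        have h3 : p ^ j = (p ^ j - 1) + 1 := by omega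
        rw [h3, pow_succ] at h2
        exact mul_right_cancel₀ hy0 (by rw [h2, one_mul])
      have h4 : orderOf (y : Om p) ∣ Nat.gcd l (p ^ j - 1) := Nat.dvd_gcd (orderOf_dvd_of_pow_eq_one hy) (orderOf_dvd_of_pow_eq_one h1)
      have h5 : Nat.gcd l (p ^ j - 1) = 1 := (Nat.Prime.coprime_iff_not_dvd hl).2 h
      rw [h5, Nat.dvd_one, orderOf_eq_one_iff] at h4
      exact h4
    · rintro rfl
      exact ⟨mem_univ _, one_pow _⟩

/-- if there is only one root of unity, all elements are powers -/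
lemma exists_root (l j : ℕ) (hl : l ≠ 0) (hj : j ≠ 0) (h : mu p l j = 1) (z : Om p) (hz : z ∈ EE p j) : ∃ y ∈ EE p j, y ^ l = z := by
  classical
  have hinj : Injective fun y : EE p j => (⟨(y : Om p) ^ l, EE_pow hj y.2 l⟩ : EE p j) := by
    intro a b hab
    have h1 : (a : Om p) ^ l = (b : Om p) ^ l := congrArg Subtype.val hab
    by_cases hb : (b : Om p) = 0
    · rw [hb, zero_pow hl] at h1
      exact Subtype.ext (((pow_eq_zero_iff hl).1 h1).trans hb.symm)
    · unfold mu at h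
      rw [card_eq_one] at h
      obtain ⟨e, he⟩ := h
      have h2 : (⟨(a : Om p) * (b : Om p)⁻¹, EE_mul hj a.2 (EE_inv hj b.2)⟩ : EE p j) ∈ univ.filter fun y : EE p j => (y : Om p) ^ l = 1 := by
        rw [mem_filter]
        refine ⟨mem_univ _, ?_⟩
        show ((a : Om p) * (b : Om p)⁻¹) ^ l = 1
        rw [mul_pow, inv_pow, h1, mul_inv_cancel₀ (pow_ne_zero _ hb)]
      have h3 : (⟨1, EE_one hj⟩ : EE p j) ∈ univ.filter fun y : EE p j => (y : Om p) ^ l = 1 := by
        rw [mem_filter]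
        exact ⟨mem_univ _, one_pow _⟩
      rw [he, mem_singleton] at h2 h3
      have h4 : (a : Om p) * (b : Om p)⁻¹ = 1 := congrArg Subtype.val (h2.trans h3.symm)
      refine Subtype.ext ?_
      rw [mul_inv_eq_one₀ hb] at h4
      exact h4
  obtain ⟨y, hy⟩ := (Finite.injective_iff_surjective.1 hinj) ⟨z, hz⟩
  exact ⟨y, y.2, congrArg Subtype.val hy⟩

lemma rc_triv (l j : ℕ) (hl : l ≠ 0) (hj : j ≠ 0) (h : mu p l j = 1) (z : Om p) (hz : z ∈ EE p j) : rc l j z = 0 := by
  by_cases hz0 : z = 0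
  · rw [hz0, rc_zero l hl]
  · obtain ⟨y, hy, hyz⟩ := exists_root l j hl hj h z hz
    rw [rc_root l j hj z hz0 hl y hy hyz, h]
    norm_num

lemma sum_rc (l j : ℕ) (hj : j ≠ 0) : ∑ z : EE p j, rc l j (z : Om p) = 0 := by
  classical
  unfold rc
  rw [sum_sub_distrib, sum_const, card_univ, nsmul_eq_mul, mul_one]
  have h1 : ∑ z : EE p j, ((univ.filter fun y : EE p j => (y : Om p) ^ l = (z : Om p)).card : ℝ) = Fintype.card (EE p j) := by
    rw [← Nat.cast_sum]
    congr 1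
    have h3 := card_eq_sum_card_fiberwise (s := (univ : Finset (EE p j))) (t := (univ : Finset (EE p j)))
      (f := fun y : EE p j => (⟨(y : Om p) ^ l, EE_pow hj y.2 l⟩ : EE p j)) fun y _ => mem_univ _
    rw [card_univ] at h3
    rw [h3]
    refine sum_congr rfl fun z _ => ?_
    congr 1
    ext y
    simp only [mem_filter, mem_univ, true_and]
    exact ⟨fun h => Subtype.ext h, fun h => congrArg Subtype.val h⟩
  rw [h1, sub_self]

lemma sum_rc_sq (l j : ℕ) (hl : l ≠ 0) (hj : j ≠ 0) :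
    ∑ z : EE p j, rc l j (z : Om p) ^ 2 = ((Fintype.card (EE p j) : ℝ) - 1) * ((mu p l j : ℝ) - 1) := by
  classical
  obtain ⟨F, hF⟩ : ∃ F : EE p j → ℝ, F = fun z : EE p j => ((univ.filter fun y : EE p j => (y : Om p) ^ l = (z : Om p)).card : ℝ) := ⟨_, rfl⟩
  have h1 : ∀ z : EE p j, rc l j (z : Om p) = F z - 1 := fun z => by
    rw [hF]
    rfl
  have h0 := sum_rc (p := p) l j hj
  rw [sum_congr rfl fun z _ => h1 z, sum_sub_distrib, sum_const, card_univ, nsmul_eq_mul, mul_one] at h0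
  have h2 : ∑ z : EE p j, F z ^ 2 = 1 + ((Fintype.card (EE p j) : ℝ) - 1) * (mu p l j : ℝ) := by
    have h3 : ∀ z : EE p j, F z ^ 2 = ∑ y ∈ univ.filter (fun y : EE p j => (⟨(y : Om p) ^ l, EE_pow hj y.2 l⟩ : EE p j) = z),
        F ⟨(y : Om p) ^ l, EE_pow hj y.2 l⟩ := by
      intro z
      rw [sum_congr rfl (g := fun _ => F z) fun y hy => by rw [(mem_filter.1 hy).2], sum_const, nsmul_eq_mul, sq]
      congr 1
      rw [hF]
      dsimp only
      congr 2
      ext y
      simp only [mem_filter, mem_univ, true_and]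
      exact ⟨fun h => Subtype.ext h, fun h => congrArg Subtype.val h⟩
    rw [sum_congr rfl fun z _ => h3 z, sum_fiberwise (univ : Finset (EE p j)) (fun y : EE p j => (⟨(y : Om p) ^ l, EE_pow hj y.2 l⟩ : EE p j))
      (fun y : EE p j => F ⟨(y : Om p) ^ l, EE_pow hj y.2 l⟩)]
    have h4 : ∀ y : EE p j, F ⟨(y : Om p) ^ l, EE_pow hj y.2 l⟩ = (mu p l j : ℝ) + if y = 0 then 1 - (mu p l j : ℝ) else 0 := by
      intro y
      by_cases hy : y = 0
      · rw [if_pos hy, hy]
        have h5 := rc_zero (p := p) l hl j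
        have h6 := h1 0
        have h7 : (⟨((0 : EE p j) : Om p) ^ l, EE_pow hj (0 : EE p j).2 l⟩ : EE p j) = 0 := by
          refine Subtype.ext ?_
          show ((0 : EE p j) : Om p) ^ l = 0
          rw [ZeroMemClass.coe_zero, zero_pow hl]
        rw [h7]
        rw [ZeroMemClass.coe_zero, h5] at h6
        linarith
      · rw [if_neg hy, add_zero]
        have hy0 : (y : Om p) ≠ 0 := fun h => hy (Subtype.ext h)
        rw [hF]
        dsimp only
        rw [rts_eq l j hj ((y : Om p) ^ l) (pow_ne_zero _ hy0) hl y y.2 rfl]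
    rw [sum_congr rfl fun y _ => h4 y, sum_add_distrib, sum_ite_eq' univ (0 : EE p j) fun _ => 1 - (mu p l j : ℝ), sum_const, card_univ, nsmul_eq_mul]
    simp only [mem_univ, if_true]
    ring
  have h3 : ∀ z : EE p j, rc l j (z : Om p) ^ 2 = F z ^ 2 - 2 * F z + 1 := fun z => by
    rw [h1]
    ring
  rw [sum_congr rfl fun z _ => h3 z, sum_add_distrib, sum_sub_distrib, h2, ← mul_sum, sum_const, card_univ, nsmul_eq_mul]
  linear_combination -2 * h0

lemma rc_frob (l j : ℕ) (hj : j ≠ 0) (z : Om p) : rc l j (z ^ p) = rc l j z := by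
  classical
  unfold rc
  congr 2
  have hinj : Injective fun y : Om p => y ^ p := frobenius_inj (Om p) p
  have hbij : Bijective fun y : EE p j => (⟨(y : Om p) ^ p, EE_pow hj y.2 p⟩ : EE p j) := by
    rw [← Finite.injective_iff_bijective]
    intro a b h
    exact Subtype.ext (hinj (congrArg Subtype.val h))
  symm
  refine card_bij (fun y _ => (⟨(y : Om p) ^ p, EE_pow hj y.2 p⟩ : EE p j)) (fun y hy => ?_) (fun a _ b _ h => hbij.1 h) (fun y hy => ?_)
  · rw [mem_filter] at hy ⊢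
    refine ⟨mem_univ _, ?_⟩
    show ((y : Om p) ^ p) ^ l = z ^ p
    rw [← pow_mul, mul_comm, pow_mul, hy.2]
  · obtain ⟨x, hx⟩ := hbij.2 y
    refine ⟨x, ?_, hx⟩
    rw [mem_filter] at hy ⊢
    refine ⟨mem_univ _, ?_⟩
    have h1 : (y : Om p) = (x : Om p) ^ p := (congrArg Subtype.val hx).symm
    apply hinj
    show ((x : Om p) ^ l) ^ p = z ^ p
    rw [← hy.2, h1, ← pow_mul, ← pow_mul, mul_comm]

/-- elements of the field with `p ^ d` elements in the field with `p ^ (2 d)` elements: the case `p ^ d = -1` modulo `l` -/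
lemma rc_half (l d : ℕ) (hl : l.Prime) (hl2 : l ≠ 2) (hlp : l ≠ p) (hd : d ≠ 0) (h : l ∣ p ^ d + 1) (z : Om p) (hz : z ≠ 0) (hzd : z ∈ EE p d) :
    rc l (2 * d) z = l - 1 := by
  have h2d : 2 * d ≠ 0 := by omega
  have hq : 1 ≤ p ^ d := Nat.one_le_iff_ne_zero.2 (pow_ne_zero _ hp.out.ne_zero)
  have h1 : ¬ l ∣ p ^ d - 1 := by
    intro h2
    have h3 : l ∣ 2 := by
      have h4 := Nat.dvd_sub h h2
      have h5 : p ^ d + 1 - (p ^ d - 1) = 2 := by omega
      rwa [h5] at h4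
    exact hl2 ((Nat.prime_dvd_prime_iff_eq hl Nat.prime_two).1 h3)
  have h2 : l ∣ p ^ (2 * d) - 1 := by
    have h3 : p ^ (2 * d) - 1 = (p ^ d + 1) * (p ^ d - 1) := by
      rw [mul_comm 2 d, pow_mul]
      have := Nat.sq_sub_sq (p ^ d) 1
      rwa [one_pow] at this
    rw [h3]
    exact h.mul_right _
  have hm1 := mu_eq (p := p) l d hl hlp hd
  rw [if_neg h1] at hm1
  have hm2 := mu_eq (p := p) l (2 * d) hl hlp h2d
  rw [if_pos h2] at hm2
  obtain ⟨y, hy, hyz⟩ := exists_root l d hl.ne_zero hd hm1 z hzd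
  rw [rc_root l (2 * d) h2d z hz hl.ne_zero y (EE_sub h2d (Dvd.intro_left 2 rfl) hy) hyz, hm2]

/-- the case `p ^ d = 1` modulo `l` -/
lemma rc_two (l d : ℕ) (hl : l.Prime) (hl2 : l ≠ 2) (hlp : l ≠ p) (hd : d ≠ 0) (h : l ∣ p ^ d - 1) (z : Om p) (hzd : z ∈ EE p d) :
    rc l (2 * d) z = rc l d z := by
  have h2d : 2 * d ≠ 0 := by omega
  by_cases hz : z = 0
  · rw [hz, rc_zero l hl.ne_zero, rc_zero l hl.ne_zero]
  have h2 : l ∣ p ^ (2 * d) - 1 := by
    have h3 : p ^ (2 * d) - 1 = (p ^ d + 1) * (p ^ d - 1) := by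
      rw [mul_comm 2 d, pow_mul]
      have := Nat.sq_sub_sq (p ^ d) 1
      rwa [one_pow] at this
    rw [h3]
    exact h.mul_left _
  have hm1 := mu_eq (p := p) l d hl hlp hd
  rw [if_pos h] at hm1
  have hm2 := mu_eq (p := p) l (2 * d) hl hlp h2d
  rw [if_pos h2] at hm2
  by_cases hex : ∃ y ∈ EE p d, y ^ l = z
  · obtain ⟨y, hy, hyz⟩ := hex
    rw [rc_root l (2 * d) h2d z hz hl.ne_zero y (EE_sub h2d (Dvd.intro_left 2 rfl) hy) hyz, rc_root l d hd z hz hl.ne_zero y hy hyz, hm1, hm2]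
  · push Not at hex
    rw [rc_none l d z hex, rc_none l (2 * d) z]
    intro y hy hyz
    -- the norm of `y`
    obtain ⟨a, ha⟩ := hl.eq_two_or_odd'.resolve_left hl2
    have hw : y * y ^ p ^ d ∈ EE p d := by
      have h3 : y ^ (p ^ d * p ^ d) = y := by
        rw [← pow_add, ← two_mul]
        exact (mem_EE h2d).1 hy
      rw [mem_EE hd, mul_pow, ← pow_mul, h3, mul_comm]
    have hwl : (y * y ^ p ^ d) ^ l = z ^ 2 := by
      rw [mul_pow, ← pow_mul, mul_comm (p ^ d) l, pow_mul, hyz, (mem_EE hd).1 hzd, sq]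
    -- `z = (z / w ^ a) ^ l`, as `l = 2 a + 1`
    have hw0 : y * y ^ p ^ d ≠ 0 := by
      intro h0
      rw [h0, zero_pow hl.ne_zero] at hwl
      exact hz (pow_eq_zero_iff two_ne_zero |>.1 hwl.symm)
    refine hex (z * ((y * y ^ p ^ d) ^ a)⁻¹) (EE_mul hd hzd (EE_inv hd (EE_pow hd hw a))) ?_
    rw [mul_pow, inv_pow, ← pow_mul, mul_comm a l, pow_mul, hwl, ← pow_mul, ha, pow_succ, mul_comm (z ^ (2 * a)) z, mul_assoc,
      mul_inv_cancel₀ (pow_ne_zero _ hz), mul_one]

end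

end Pool.Agent.W2helper48.JV
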