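import Pool.Agent.W2helper48.JV.Jt
import Pool.Agent.W2helper48.JV.Abs
import Pool.Agent.W2helper48.JT.Glb

/-!
# The local theorem for several bounded functions, and the sums over primes
-/

set_option autoImplicit false
set_option linter.unusedSectionVars false

namespace Pool.Agent.W2helper48.JV

open Finset Function MeasureTheory ProbabilityTheory Filter
open Q282.CL
open Q282MM (gm)
open Q282.GK (kbox)
open Q285HS (Sep sm FewBad lln IV)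
open Pool.Agent.Y722.HS (Mon mev)
open Pool.Agent.W2helper48.JT
open scoped NNReal

/-- the envelope -/
noncomputable def EV {n p δ : ℕ} [Fact p.Prime] {Θ : Type} [Fintype Θ] (ψ : Θ → ∀ d, EE p d → ℝ) (j : ℕ) (c : Mon n δ → ZMod p) : ℝ :=
  1 + ∑ d ∈ Icc 1 j, WW ψ d c

lemma EV_one {n p δ : ℕ} [Fact p.Prime] {Θ : Type} [Fintype Θ] (ψ : Θ → ∀ d, EE p d → ℝ) (j : ℕ) (c : Mon n δ → ZMod p) : 1 ≤ EV ψ j c := by
  unfold EV
  have : 0 ≤ ∑ d ∈ Icc 1 j, WW ψ d c := sum_nonneg fun d _ => WW_nonneg ψ d c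
  linarith

lemma YY_le {n p δ : ℕ} [Fact p.Prime] {Θ : Type} [Fintype Θ] (ψ : Θ → ∀ d, EE p d → ℝ) (θ : Θ) (d j : ℕ) (hd : d ∈ Icc 1 j) (c : Mon n δ → ZMod p) :
    |YY ψ θ d c| ≤ Real.sqrt (EV ψ j c) := by
  refine Real.abs_le_sqrt ?_
  have h1 : YY ψ θ d c ^ 2 ≤ WW ψ d c := single_le_sum (f := fun θ => YY ψ θ d c ^ 2) (fun _ _ => sq_nonneg _) (mem_univ θ)
  have h2 : WW ψ d c ≤ ∑ d ∈ Icc 1 j, WW ψ d c := single_le_sum (f := fun d => WW ψ d c) (fun d _ => WW_nonneg ψ d c) hd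
  unfold EV
  linarith

/-- **the local theorem** -/
theorem loc2 (n δ J : ℕ) (hn : 1 ≤ n) {Θ : Type} [Fintype Θ] [DecidableEq Θ] (V : ℕ → Θ → ℝ≥0) (M : ℕ → Θ → ℝ) (B : ℝ) (hB : 1 ≤ B)
    (hV : ∀ d ∈ Icc 1 J, ∀ θ, (V d θ : ℝ) ≤ B) (hM : ∀ d ∈ Icc 1 J, ∀ θ, |M d θ| ≤ B) {r : ℕ}
    (th : Fin r → Θ) (f : Fin r → ℕ) (hf : ∀ i, f i ∈ Icc 1 J) (hfD : 2 * ∑ i, f i ≤ δ + 1) : ∃ C : ℝ, 1 ≤ C ∧
    ∀ (p : ℕ) [Fact p.Prime] (ψ : Θ → ∀ d, EE p d → ℝ), Good2 p J ψ V B → ∀ (T Z : Fin r → (Mon n δ → ZMod p) → ℝ),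
      (∀ i c, |T i c - YY ψ (th i) (f i) c - M (f i) (th i)| ≤ B * (1 / sp p) * Real.sqrt (EV ψ (f i) c) + Z i c) →
      (∀ i, (∀ c, 0 ≤ Z i c ∧ Z i c ≤ B) ∧ av (fun c => Z i c ^ 2) ≤ B * (1 / sp p) ^ 2) →
      |av (fun c : Mon n δ → ZMod p => ∏ i, T i c) - tgt J V M th f| ≤ C * (1 / sp p) ∧ av (fun c : Mon n δ → ZMod p => (∏ i, T i c) ^ 2) ≤ C := by
  obtain ⟨K₁, hK₁1, hK₁⟩ := joint2 n δ J hn V M B hB hV hM th f hf (by omega)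
  obtain ⟨K₂, hK₂1, hK₂⟩ := env2 n δ J hn V B hB hV
  obtain ⟨P, hP⟩ : ∃ P : ℝ, P = ∏ i, ((f i : ℝ) + 1) := ⟨_, rfl⟩
  have hP1 : 1 ≤ P := by
    rw [hP]
    have h1 : ∏ _i : Fin r, (1 : ℝ) ≤ ∏ i, ((f i : ℝ) + 1) :=
      prod_le_prod (fun _ _ => zero_le_one) fun i _ => by linarith [(Nat.cast_nonneg (f i) : (0 : ℝ) ≤ f i)]
    rwa [prod_const_one] at h1
  obtain ⟨C₁, hC₁⟩ : ∃ C₁ : ℝ, C₁ = B + K₁ + K₂ * P := ⟨_, rfl⟩
  have hKP : 0 ≤ K₂ * P := by positivity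
  have hC₁B : B ≤ C₁ := by
    rw [hC₁]
    linarith
  have hC₁K : K₁ ≤ C₁ := by
    rw [hC₁]
    linarith
  have hC₁P : K₂ * P ≤ C₁ := by
    rw [hC₁]
    linarith
  obtain ⟨C, hC1, hC⟩ := cmp (r := r) C₁ (by linarith)
  refine ⟨C, hC1, fun p hp ψ hg T Z hT hZ => ?_⟩
  have hs := sp_pos p
  have hε0 : 0 < 1 / sp p := by positivity
  have hε1 : 1 / sp p ≤ 1 := by
    rw [div_le_one hs]
    exact (one_lt_sp p).le
  have hEV : ∀ (j : ℕ) (c : Mon n δ → ZMod p), VV (fun d c => Real.sqrt (WW ψ d c)) j c = EV ψ j c := by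
    intro j c
    unfold VV EV
    congr 1
    refine sum_congr rfl fun d _ => ?_
    rw [Real.sq_sqrt (WW_nonneg ψ d c)]
  have henv := av_env f hf hfD K₂ (α := Mon n δ → ZMod p) (fun d c => Real.sqrt (WW ψ d c)) (fun k hk => hK₂ p ψ hg k hk)
  simp only [hEV] at henv
  rw [← hP] at henv
  refine hC (Mon n δ → ZMod p) (fun i c => YY ψ (th i) (f i) c) T Z (fun i c => EV ψ (f i) c) (fun i => M (f i) (th i)) (tgt J V M th f) (1 / sp p) hε0 hε1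
    (fun i => (hM (f i) (hf i) (th i)).trans hC₁B) ((hK₁ p ψ hg).trans (mul_le_mul_of_nonneg_right hC₁K hε0.le)) (fun i c => EV_one ψ _ c)
    (fun i c => YY_le ψ (th i) (f i) (f i) (mem_Icc.2 ⟨(mem_Icc.1 (hf i)).1, le_rfl⟩) c) (henv.trans hC₁P) (fun i c => (hT i c).trans ?_)
    (fun i => ⟨fun c => ⟨((hZ i).1 c).1, ((hZ i).1 c).2.trans hC₁B⟩, ((hZ i).2).trans ?_⟩)
  · refine add_le_add (mul_le_mul_of_nonneg_right (mul_le_mul_of_nonneg_right hC₁B hε0.le) (Real.sqrt_nonneg _)) le_rfl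
  · exact mul_le_mul_of_nonneg_right hC₁B (by positivity)

section

variable {κ : Type} [Fintype κ] [DecidableEq κ]

/-- **the sums over primes**: functions `T θ j` with joint moments near `μ p` -/
theorem final2 {Θ : Type} [Fintype Θ] [DecidableEq Θ] (T : Θ → ℕ → (p : ℕ) → (κ → ZMod p) → ℝ) (μ : ℕ → ∀ r : ℕ, (Fin r → Θ) → (Fin r → ℕ) → ℝ) (D β : ℕ)
    (K : ℝ) (hK : 1 ≤ K) (hbd : ∀ θ, ∀ j ∈ Icc 1 D, ∀ p : ℕ, p.Prime → ∀ c, |T θ j p c| ≤ K * (p : ℝ) ^ β)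
    (hloc : ∀ (r : ℕ) (th : Fin r → Θ) (f : Fin r → ℕ), (∀ i, f i ∈ Icc 1 D) → 2 * ∑ i, f i ≤ D → ∃ (C : ℝ) (p₁ : ℕ), ∀ p : ℕ, p.Prime →
      |μ p r th f| ≤ C ∧ (p₁ ≤ p → |mn (fun p c => ∏ i, T (th i) (f i) p c) p - μ p r th f| ≤ C / Real.sqrt p ∧
        mn (fun p c => (∏ i, T (th i) (f i) p c) ^ 2) p ≤ C))
    (Bad : (p : ℕ) → Set (κ → ZMod p)) (p₀ : ℕ) (C₀ : ℝ) (hBad : FewBad Bad p₀ C₀) (ε : ℝ) (hε : 0 < ε) (hε1 : ε ≤ 1) :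
    ∃ κ₀ : ℝ, 0 < κ₀ ∧ ∃ C : ℝ, 1 ≤ C ∧ ∀ (w : ℕ → ℝ), (∀ p, |w p| ≤ 1) → ∀ (N : κ → ℤ) (L : κ → ℕ) (T' : ℝ), 0 < T' → (∀ i, T' ≤ L i) →
      ∀ X₀ : ℕ, 1 ≤ X₀ → ∃ E : Finset (κ → ℤ), E ⊆ kbox N L ∧ (E.card : ℝ) ≤ C * (X₀ : ℝ) ^ (-(ε / 2)) * ∏ i, (L i : ℝ) ∧
      ∀ t ∈ kbox N L, t ∉ E → ∀ Y Y' : ℕ, Y ≤ Y' → X₀ ≤ Y' → (Y' : ℝ) ≤ T' ^ κ₀ → ∀ (r : ℕ) (th : Fin r → Θ) (f : Fin r → ℕ), (∀ i, f i ∈ Icc 1 D) →
        2 * ∑ i, f i ≤ D →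
        |∑ p ∈ JT.WW Bad Y Y' t, w p * (∏ i, T (th i) (f i) p (fun y => (t y : ZMod p)) - μ p r th f)| ≤ C * (Y' : ℝ) ^ (1 / 2 + ε / 2) := by
  classical
  obtain ⟨valid, hvalid⟩ : ∃ v : (Σ r : Fin (D + 1), (Fin r → Θ) × (Fin r → Fin (D + 1))) → Prop,
      ∀ a, v a ↔ (∀ i, ((a.2.2 i : ℕ)) ∈ Icc 1 D) ∧ 2 * ∑ i, (a.2.2 i : ℕ) ≤ D := ⟨_, fun _ => Iff.rfl⟩
  obtain ⟨κ₀, hκ₀, C, hC, h⟩ := glb (I := Σ r : Fin (D + 1), (Fin r → Θ) × (Fin r → Fin (D + 1)))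
    (fun a p c => if valid a then ∏ i, T (a.2.1 i) (a.2.2 i) p c - μ p a.1 a.2.1 (fun i => (a.2.2 i : ℕ)) else 0) (fun _ => 0) (fun a => by
      by_cases ha : valid a
      · simp only [if_pos ha]
        obtain ⟨h1, h2⟩ := (hvalid a).1 ha
        obtain ⟨C, p₁, h3⟩ := hloc a.1 a.2.1 (fun i => (a.2.2 i : ℕ)) h1 h2
        have hKr : 1 ≤ K ^ (a.1 : ℕ) := one_le_pow₀ hK
        refine ⟨β * a.1, p₁, 2 * |C| + 2 * C ^ 2 + K ^ (a.1 : ℕ), ⟨?_, fun p hp c => ?_, fun p hp hpp => ?_, fun p hp hpp => ?_⟩⟩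
        · have := abs_nonneg C
          nlinarith [sq_nonneg C]
        · have h4 : ∏ i : Fin a.1, |T (a.2.1 i) (a.2.2 i) p c| ≤ ∏ _i : Fin a.1, (K * (p : ℝ) ^ β) :=
            prod_le_prod (fun _ _ => abs_nonneg _) fun i _ => hbd _ _ (h1 i) p hp c
          have hp1 : (1 : ℝ) ≤ p := by exact_mod_cast hp.one_lt.le
          have h5 : (1 : ℝ) ≤ (p : ℝ) ^ (β * (a.1 : ℕ)) := one_le_pow₀ hp1
          refine (abs_sub _ _).trans ?_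
          rw [abs_prod]
          rw [prod_const, card_univ, Fintype.card_fin, mul_pow, ← pow_mul] at h4
          have h6 := (h3 p hp).1
          have h7 := le_abs_self C
          have h8 := abs_nonneg C
          have h9 : |μ p a.1 a.2.1 fun i => (a.2.2 i : ℕ)| ≤ |C| * (p : ℝ) ^ (β * (a.1 : ℕ)) := by
            have : |C| ≤ |C| * (p : ℝ) ^ (β * (a.1 : ℕ)) := le_mul_of_one_le_right h8 h5
            linarith
          have h10 : (2 * |C| + 2 * C ^ 2 + K ^ (a.1 : ℕ)) * (p : ℝ) ^ (β * (a.1 : ℕ)) =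
              K ^ (a.1 : ℕ) * (p : ℝ) ^ (β * (a.1 : ℕ)) + |C| * (p : ℝ) ^ (β * (a.1 : ℕ)) + (|C| + 2 * C ^ 2) * (p : ℝ) ^ (β * (a.1 : ℕ)) := by ring
          have h11 : 0 ≤ (|C| + 2 * C ^ 2) * (p : ℝ) ^ (β * (a.1 : ℕ)) := by positivity
          rw [h10]
          linarith
        · have : Fact p.Prime := ⟨hp⟩
          have h4 := ((h3 p hp).2 hpp).1
          rw [sub_zero, mn_eq]
          rw [av_sub, av_const]
          rw [mn_eq (fun p c => ∏ i, T (a.2.1 i) (a.2.2 i) p c)] at h4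
          refine h4.trans (div_le_div_of_nonneg_right ?_ (Real.sqrt_nonneg _))
          have := le_abs_self C
          have := abs_nonneg C
          nlinarith [sq_nonneg C]
        · have : Fact p.Prime := ⟨hp⟩
          have h4 := ((h3 p hp).2 hpp).2
          have h5 := (h3 p hp).1
          rw [mn_eq (fun p c => (∏ i, T (a.2.1 i) (a.2.2 i) p c) ^ 2)] at h4
          rw [mn_eq (fun p c => (∏ i, T (a.2.1 i) (a.2.2 i) p c - μ p a.1 a.2.1 fun i => (a.2.2 i : ℕ)) ^ 2)]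
          have h6 : ∀ c : κ → ZMod p, (∏ i, T (a.2.1 i) (a.2.2 i) p c - μ p a.1 a.2.1 fun i => (a.2.2 i : ℕ)) ^ 2 ≤
              2 * (∏ i, T (a.2.1 i) (a.2.2 i) p c) ^ 2 + 2 * C ^ 2 := by
            intro c
            have h7 : (μ p a.1 a.2.1 fun i => (a.2.2 i : ℕ)) ^ 2 ≤ C ^ 2 := by
              rw [← sq_abs]
              exact pow_le_pow_left₀ (abs_nonneg _) h5 2
            nlinarith [sq_nonneg (∏ i, T (a.2.1 i) (a.2.2 i) p c + μ p a.1 a.2.1 fun i => (a.2.2 i : ℕ))]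
          refine (av_mono h6).trans ?_
          rw [av_add, av_mul, av_const]
          have := le_abs_self C
          have := abs_nonneg C
          linarith
      · simp only [if_neg ha]
        refine ⟨0, 0, 1, ⟨le_rfl, fun p _ c => by simp, fun p hp _ => ?_, fun p hp _ => ?_⟩⟩
        · have : Fact p.Prime := ⟨hp⟩
          rw [mn_eq, av_const, sub_self, abs_zero]
          positivity
        · have : Fact p.Prime := ⟨hp⟩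
          rw [mn_eq (fun (p : ℕ) (c : κ → ZMod p) => (0 : ℝ) ^ 2)]
          simp only [ne_eq, OfNat.ofNat_ne_zero, not_false_eq_true, zero_pow]
          rw [av_const]
          exact zero_le_one) Bad p₀ C₀ hBad ε hε hε1
  refine ⟨κ₀, hκ₀, C, hC, fun w hw N L T' hT hTL X₀ hX₀ => ?_⟩
  obtain ⟨E, hE1, hE2, hE3⟩ := h w hw N L T' hT hTL X₀ hX₀
  refine ⟨E, hE1, hE2, fun t ht hnt Y Y' hYY hY hYT r th f hf hfD => ?_⟩
  have hr : r ≤ D := by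
    have h1 : ∑ _i : Fin r, 1 ≤ ∑ i, f i := sum_le_sum fun i _ => (mem_Icc.1 (hf i)).1
    rw [sum_const, card_univ, Fintype.card_fin, smul_eq_mul, mul_one] at h1
    omega
  have h1 := hE3 t ht hnt Y Y' hYY hY hYT ⟨⟨r, Nat.lt_succ_of_le hr⟩, th, fun i => ⟨f i, Nat.lt_succ_of_le (mem_Icc.1 (hf i)).2⟩⟩
  have hv : valid ⟨⟨r, Nat.lt_succ_of_le hr⟩, th, fun i => ⟨f i, Nat.lt_succ_of_le (mem_Icc.1 (hf i)).2⟩⟩ := (hvalid _).2 ⟨hf, hfD⟩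
  simp only [if_pos hv, sub_zero] at h1
  exact h1

end

end Pool.Agent.W2helper48.JV
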