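import Pool.Agent.W2helper48.JV.Cyc
import Pool.Agent.W2helper48.JV.Loc2

/-!
# The local joint moments of cyclic covers of projective space of prime degree
-/

set_option autoImplicit false
set_option linter.unusedSectionVars false

namespace Pool.Agent.W2helper48.JV

open Finset Function MeasureTheory ProbabilityTheory
open Q282.CL
open Q285HS (Sep sm)
open Pool.Agent.Y722.HS (Mon mev form)
open Pool.Agent.W2helper48.JT
open scoped NNReal

/-- the variances -/
noncomputable def VC (l : ℕ) (a : ZMod l) (d : ℕ) (_ : Unit) : ℝ≥0 := if a ^ d = 1 then ((l - 1 : ℕ) : ℝ≥0) else 0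

/-- the means -/
noncomputable def MC (l : ℕ) (a : ZMod l) (j : ℕ) (_ : Unit) : ℝ := if Even j ∧ a ^ (j / 2) = -1 then (l : ℝ) - 1 else 0

lemma one_iff (l p d : ℕ) [hp : Fact p.Prime] : ((p : ZMod l) ^ d = 1) ↔ l ∣ p ^ d - 1 := by
  have hq : 1 ≤ p ^ d := Nat.one_le_iff_ne_zero.2 (pow_ne_zero _ hp.out.ne_zero)
  rw [← ZMod.natCast_eq_zero_iff, Nat.cast_sub hq, sub_eq_zero]
  push_cast
  rfl

lemma neg_iff (l p d : ℕ) : ((p : ZMod l) ^ d = -1) ↔ l ∣ p ^ d + 1 := by
  rw [← ZMod.natCast_eq_zero_iff, eq_neg_iff_add_eq_zero]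
  push_cast
  rfl

section

variable {p : ℕ} [hp : Fact p.Prime]

variable (p) in
/-- the local function -/
noncomputable def psC (l : ℕ) (_ : Unit) (d : ℕ) (z : EE p d) : ℝ := rc l d (z : Om p)

lemma mu_V (l d : ℕ) (hl : l.Prime) (hlp : l ≠ p) (hd : d ≠ 0) : ((VC l (p : ZMod l) d () : ℝ≥0) : ℝ) = (mu p l d : ℝ) - 1 := by
  have hl1 : 1 ≤ l := hl.one_lt.le
  unfold VC
  rw [mu_eq l d hl hlp hd]
  by_cases h : (p : ZMod l) ^ d = 1
  · rw [if_pos h, if_pos ((one_iff l p d).1 h)]
    rw [NNReal.coe_natCast, Nat.cast_sub hl1, Nat.cast_one]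
  · rw [if_neg h, if_neg fun h' => h ((one_iff l p d).2 h')]
    simp

lemma good_C (l J : ℕ) (hl : l.Prime) (hlp : l ≠ p) (B : ℝ) (hB : (l : ℝ) ≤ B) : Good2 p J (psC p l) (VC l (p : ZMod l)) B := by
  have hs := sp_pos p
  have hl1 : (1 : ℝ) ≤ l := by exact_mod_cast hl.one_lt.le
  refine ⟨fun d _ _ z => (rc_abs l hl.one_lt.le d _).trans hB, fun d hd _ => ?_, fun d hd θ θ' => ?_⟩
  · unfold av psC
    rw [sum_rc l d (by rw [mem_Icc] at hd; omega), zero_div]
  · have hd0 : d ≠ 0 := by rw [mem_Icc] at hd; omega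
    rw [if_pos rfl]
    have h1 : av (fun z => psC p l θ d z * psC p l θ' d z) = (1 - 1 / sp p ^ (2 * d)) * ((mu p l d : ℝ) - 1) := by
      unfold av psC
      have h2 : ∀ z : EE p d, rc l d (z : Om p) * rc l d (z : Om p) = rc l d (z : Om p) ^ 2 := fun z => by ring
      rw [sum_congr rfl fun z _ => h2 z, sum_rc_sq l d hl.ne_zero hd0, card_EE' (p := p) d hd0]
      have h3 : sp p ^ (2 * d) ≠ 0 := by positivity
      field_simp
    have h2 := mu_V (p := p) l d hl hlp hd0
    have h3 : (VC l (p : ZMod l) d θ : ℝ≥0) = VC l (p : ZMod l) d () := rfl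
    rw [h1, h3, h2]
    have h4 : (1 - 1 / sp p ^ (2 * d)) * ((mu p l d : ℝ) - 1) - ((mu p l d : ℝ) - 1) = -((1 / sp p ^ (2 * d)) * ((mu p l d : ℝ) - 1)) := by ring
    rw [h4, abs_neg, abs_mul, abs_of_nonneg (by positivity : 0 ≤ 1 / sp p ^ (2 * d)), mul_comm B]
    refine mul_le_mul (inv_sp_le (by omega)) ?_ (abs_nonneg _) (by positivity)
    rw [mu_eq l d hl hlp hd0]
    split_ifs
    · rw [abs_of_nonneg (by linarith)]
      linarith
    · simp only [Nat.cast_one, sub_self, abs_zero]
      linarith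

variable {n δ : ℕ}

/-- the normalised sum over the field with `p ^ j` elements -/
noncomputable def TC (l j : ℕ) (c : Mon n δ → ZMod p) : ℝ := (∑ v ∈ j.divisors.biUnion fun d => MM n p d, rc l j (vl c v)) / sD p n j

lemma YY_C (l j : ℕ) (hj : j ≠ 0) (c : Mon n δ → ZMod p) : ∑ v ∈ MM n p j, rc l j (vl c v) = sD p n j * YY (psC p l) () j c := by
  have hsj : sD p n j ≠ 0 := by
    unfold sD
    have := sp_pos p
    positivity
  rw [sum_MM (fun v => rc l j (vl c v)) fun v => by rw [vl_fr, rc_frob l j hj]]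
  unfold YY Y1 sm
  have h3 : ∀ v ∈ CP n p j, psC p l () j (evd (δ := δ) j v c) = rc l j (vl c v) := by
    intro v hv
    unfold psC
    rw [vl_evd (CP_sub hv)]
  rw [sum_congr rfl h3]
  have h4 : sp p ^ (j * n) = sD p n j := rfl
  rw [h4]
  field_simp

lemma near_C (l : ℕ) (hl : l.Prime) (hl2 : l ≠ 2) (hlp : l ≠ p) (j : ℕ) (hn : 1 ≤ n) (hj : j ≠ 0) (c : Mon n δ → ZMod p) :
    |TC l j c - YY (psC p l) () j c - MC l (p : ZMod l) j ()| ≤
      j * (l * (2 + 2 * j) + 1 + 2 * l) * (1 / sp p) * Real.sqrt (EV (psC p l) j c) + l * ZD j c := by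
  have hs := sp_pos p
  have hε0 : 0 < 1 / sp p := by positivity
  have hl0 : (0 : ℝ) ≤ l := Nat.cast_nonneg l
  have hl1 : (1 : ℝ) ≤ l := by exact_mod_cast hl.one_lt.le
  have hsj : 0 < sD p n j := by
    unfold sD
    positivity
  have hE1 : 1 ≤ Real.sqrt (EV (psC p l) j c) := Real.one_le_sqrt.2 (EV_one _ _ _)
  have hM : MC l (p : ZMod l) j () = ∑ d ∈ j.properDivisors, if 2 * d = j then MC l (p : ZMod l) j () else 0 := by
    by_cases he : Even j
    · obtain ⟨k, hk⟩ := he
      rw [sum_eq_single k]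
      · rw [if_pos (by omega)]
      · intro d _ hd
        rw [if_neg (by omega)]
      · intro h
        exfalso
        apply h
        rw [Nat.mem_properDivisors]
        exact ⟨⟨2, by omega⟩, by omega⟩
    · have h1 : MC l (p : ZMod l) j () = 0 := by
        unfold MC
        rw [if_neg fun h => he h.1]
      rw [h1]
      simp
  have h3 : TC l j c - YY (psC p l) () j c - MC l (p : ZMod l) j () =
      ∑ d ∈ j.properDivisors, ((∑ v ∈ MM n p d, rc l j (vl c v)) / sD p n j - if 2 * d = j then MC l (p : ZMod l) j () else 0) := by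
    unfold TC
    rw [JT.sum_div, ← Nat.cons_self_properDivisors hj, sum_cons, YY_C l j hj, sum_sub_distrib, ← hM, ← Finset.sum_div]
    field_simp
    ring
  rw [h3]
  refine (abs_sum_le_sum_abs _ _).trans ?_
  have h4 : ∀ d ∈ j.properDivisors, |(∑ v ∈ MM n p d, rc l j (vl c v)) / sD p n j - if 2 * d = j then MC l (p : ZMod l) j () else 0| ≤
      (l * (2 + 2 * j) + 1 + 2 * l) * ((1 / sp p) * Real.sqrt (EV (psC p l) j c)) +
        l * ((if 2 * d = j then ∑ v ∈ MM n p d, (if vl c v = 0 then (1 : ℝ) else 0) else 0) / sD p n j) := by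
    intro d hd
    obtain ⟨hd2, hd1⟩ := proper_le hd
    have hd0 : d ≠ 0 := by omega
    have hdj : (d : ℝ) ≤ j := by exact_mod_cast (by omega : d ≤ j)
    have hj0 : (0 : ℝ) ≤ j := Nat.cast_nonneg j
    obtain ⟨e, he⟩ : ∃ e : ℝ, e = (1 / sp p) * Real.sqrt (EV (psC p l) j c) := ⟨_, rfl⟩
    have he1 : 1 / sp p ≤ e := by
      rw [he]
      exact le_mul_of_one_le_right hε0.le hE1
    have he0 : 0 ≤ e := hε0.le.trans he1
    rw [← he]
    split_ifs with h
    · -- degree `j / 2`
      have hz0 : 0 ≤ (∑ v ∈ MM n p d, if vl c v = 0 then (1 : ℝ) else 0) / sD p n j := by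
        refine div_nonneg (sum_nonneg fun v _ => ?_) hsj.le
        split_ifs <;> norm_num
      by_cases h1 : l ∣ p ^ d + 1
      · -- `p ^ d = -1`
        have hMv : MC l (p : ZMod l) j () = (l : ℝ) - 1 := by
          have h2 : Even j ∧ (p : ZMod l) ^ (j / 2) = -1 := by
            refine ⟨⟨d, by omega⟩, ?_⟩
            rw [← h, Nat.mul_div_cancel_left d two_pos]
            exact (neg_iff l p d).2 h1
          unfold MC
          rw [if_pos h2]
        have h5 : ∀ v ∈ MM n p d, rc l j (vl c v) = ((l : ℝ) - 1) * (1 - if vl c v = 0 then (1 : ℝ) else 0) := by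
          intro v hv
          by_cases hz : vl c v = 0
          · rw [if_pos hz, hz, rc_zero l hl.ne_zero]
            ring
          · have h5 : vl c v ∈ EE p d := by
              rw [← vl_evd hv]
              exact (evd (δ := δ) d v c).2
            rw [if_neg hz, ← h, rc_half l d hl hl2 hlp hd0 h1 _ hz h5]
            ring
        rw [sum_congr rfl h5, ← mul_sum, sum_sub_distrib, sum_const, nsmul_eq_mul, mul_one, hMv]
        have h6 := NN_near (n := n) (p := p) hn d (by omega)
        have h7 : sD p n j = sp p ^ (2 * n * d) := by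
          unfold sD
          rw [← h]
          congr 1
          ring
        have h8 : ((l : ℝ) - 1) * ((MM n p d).card - ∑ v ∈ MM n p d, if vl c v = 0 then (1 : ℝ) else 0) / sD p n j - (l - 1) =
            (l - 1) * ((NN n p d / sp p ^ (2 * n * d) - 1) - (∑ v ∈ MM n p d, if vl c v = 0 then (1 : ℝ) else 0) / sD p n j) := by
          rw [← h7]
          unfold NN
          ring
        rw [h8, abs_mul, abs_of_nonneg (by linarith : (0 : ℝ) ≤ l - 1)]
        have h9 : |(NN n p d / sp p ^ (2 * n * d) - 1) - (∑ v ∈ MM n p d, if vl c v = 0 then (1 : ℝ) else 0) / sD p n j| ≤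
            (2 + 2 * j) * e + (∑ v ∈ MM n p d, if vl c v = 0 then (1 : ℝ) else 0) / sD p n j := by
          refine (abs_sub _ _).trans (add_le_add ?_ (le_of_eq (abs_of_nonneg hz0)))
          refine h6.trans (mul_le_mul (by linarith) he1 hε0.le (by linarith))
        refine (mul_le_mul_of_nonneg_left h9 (by linarith)).trans ?_
        have h10 : 0 ≤ (2 + 2 * (j : ℝ)) * e := by positivity
        nlinarith
      · have hMv : MC l (p : ZMod l) j () = 0 := by
          unfold MC
          rw [if_neg]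
          rintro ⟨_, h2⟩
          rw [← h, Nat.mul_div_cancel_left d two_pos] at h2
          exact h1 ((neg_iff l p d).1 h2)
        rw [hMv, sub_zero]
        by_cases h2 : l ∣ p ^ d - 1
        · -- `p ^ d = 1`
          have h5 : ∀ v ∈ MM n p d, rc l j (vl c v) = rc l d (vl c v) := by
            intro v hv
            rw [← h, rc_two l d hl hl2 hlp hd0 h2]
            rw [← vl_evd hv]
            exact (evd (δ := δ) d v c).2
          rw [sum_congr rfl h5, YY_C l d hd0]
          have h6 : sD p n d / sD p n j ≤ 1 / sp p := by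
            unfold sD
            refine sp_div_le ?_
            have h7 : (d + 1) * n ≤ j * n := Nat.mul_le_mul_right n (by omega)
            have h8 : (d + 1) * n = d * n + n := by ring
            omega
          have h7 : 0 ≤ sD p n d / sD p n j := by
            unfold sD
            positivity
          have h8 : sD p n d * YY (psC p l) () d c / sD p n j = (sD p n d / sD p n j) * YY (psC p l) () d c := by ring
          rw [h8, abs_mul, abs_of_nonneg h7]
          have h9 := YY_le (psC p l) () d j (mem_Icc.2 ⟨hd1, by omega⟩) c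
          have h10 : sD p n d / sD p n j * |YY (psC p l) () d c| ≤ e := by
            rw [he]
            exact mul_le_mul h6 h9 (abs_nonneg _) hε0.le
          have h11 : 0 ≤ (l : ℝ) * ((∑ v ∈ MM n p d, if vl c v = 0 then (1 : ℝ) else 0) / sD p n j) := mul_nonneg hl0 hz0
          have h12 : 0 ≤ (l : ℝ) * (2 + 2 * j) * e := by positivity
          have h13 : 0 ≤ 2 * (l : ℝ) * e := by positivity
          have h14 : ((l : ℝ) * (2 + 2 * j) + 1 + 2 * l) * e = l * (2 + 2 * j) * e + e + 2 * l * e := by ring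
          rw [h14]
          linarith
        · -- only one root of unity
          have h5 : mu p l j = 1 := by
            rw [mu_eq l j hl hlp hj, if_neg]
            intro h6
            have h7 : p ^ j - 1 = (p ^ d + 1) * (p ^ d - 1) := by
              rw [← h, mul_comm 2 d, pow_mul]
              have := Nat.sq_sub_sq (p ^ d) 1
              rwa [one_pow] at this
            rw [h7] at h6
            rcases hl.dvd_mul.1 h6 with h8 | h8
            · exact h1 h8
            · exact h2 h8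
          have h6 : ∑ v ∈ MM n p d, rc l j (vl c v) = 0 := by
            refine sum_eq_zero fun v hv => ?_
            refine rc_triv l j hl.ne_zero hj h5 _ ?_
            rw [← vl_evd hv]
            exact EE_sub hj ⟨2, by omega⟩ (evd (δ := δ) d v c).2
          rw [h6, zero_div, abs_zero]
          have h11 : 0 ≤ (l : ℝ) * ((∑ v ∈ MM n p d, if vl c v = 0 then (1 : ℝ) else 0) / sD p n j) := mul_nonneg hl0 hz0
          have h12 : 0 ≤ ((l : ℝ) * (2 + 2 * j) + 1 + 2 * l) * e := by positivity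
          linarith
    · rw [sub_zero, zero_div, mul_zero, add_zero, abs_div, abs_of_pos hsj]
      have h5 : |∑ v ∈ MM n p d, rc l j (vl c v)| ≤ l * NN n p d := by
        refine (abs_sum_le_sum_abs _ _).trans ((sum_le_sum fun v _ => rc_abs l hl.one_lt.le j _).trans (le_of_eq ?_))
        rw [sum_const, nsmul_eq_mul, mul_comm]
        rfl
      have h6 := div_le_div_of_nonneg_right (h5.trans (mul_le_mul_of_nonneg_left (NN_le (n := n) (p := p) d (by omega)) hl0)) hsj.le
      refine h6.trans ?_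
      have h7 : sp p ^ (2 * n * d) / sD p n j ≤ 1 / sp p := by
        unfold sD
        refine sp_div_le ?_
        have h8 : (2 * d + 1) * n ≤ j * n := Nat.mul_le_mul_right n (by omega)
        have h9 : (2 * d + 1) * n = 2 * n * d + n := by ring
        omega
      have h8 : (l : ℝ) * (2 * sp p ^ (2 * n * d)) / sD p n j = 2 * l * (sp p ^ (2 * n * d) / sD p n j) := by ring
      rw [h8]
      have h9 : 2 * (l : ℝ) * (sp p ^ (2 * n * d) / sD p n j) ≤ 2 * l * e := mul_le_mul_of_nonneg_left (h7.trans he1) (by positivity)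
      have h12 : 0 ≤ (l : ℝ) * (2 + 2 * j) * e := by positivity
      have h14 : ((l : ℝ) * (2 + 2 * j) + 1 + 2 * l) * e = l * (2 + 2 * j) * e + e + 2 * l * e := by ring
      rw [h14]
      linarith
  refine (sum_le_sum h4).trans ?_
  rw [sum_add_distrib, sum_const, nsmul_eq_mul]
  unfold ZD
  rw [Finset.sum_div, mul_sum]
  refine add_le_add ?_ le_rfl
  have h5 : (j.properDivisors.card : ℝ) ≤ j := by
    have h6 : j.properDivisors.card ≤ j := by
      calc j.properDivisors.card ≤ (Ico 1 j).card := card_filter_le _ _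
        _ ≤ j := by
          rw [Nat.card_Ico]
          omega
    exact_mod_cast h6
  have h6 : 0 ≤ ((l : ℝ) * (2 + 2 * j) + 1 + 2 * l) * ((1 / sp p) * Real.sqrt (EV (psC p l) j c)) := by positivity
  refine (mul_le_mul_of_nonneg_right h5 h6).trans (le_of_eq ?_)
  ring

end

/-- **the local joint moments of cyclic covers** -/
theorem local_C (l : ℕ) (hl : l.Prime) (hl2 : l ≠ 2) (n δ J : ℕ) (hn : 1 ≤ n) (hJ : J ≤ δ + 1) {r : ℕ} (f : Fin r → ℕ) (hf : ∀ i, f i ∈ Icc 1 J)
    (hfD : 2 * ∑ i, f i ≤ δ + 1) :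
    ∃ C : ℝ, 1 ≤ C ∧ ∀ (p : ℕ) [Fact p.Prime], l ≠ p →
      |tgt J (VC l (p : ZMod l)) (MC l (p : ZMod l)) (fun _ : Fin r => ()) f| ≤ C ∧
      |av (fun c : Mon n δ → ZMod p => ∏ i, TC l (f i) c) - tgt J (VC l (p : ZMod l)) (MC l (p : ZMod l)) (fun _ : Fin r => ()) f| ≤ C * (1 / sp p) ∧
      av (fun c : Mon n δ → ZMod p => (∏ i, TC l (f i) c) ^ 2) ≤ C := by
  classical
  have hl0 : (0 : ℝ) ≤ l := Nat.cast_nonneg l
  have hl1 : (1 : ℝ) ≤ l := by exact_mod_cast hl.one_lt.le
  have hJ0 : (0 : ℝ) ≤ J := Nat.cast_nonneg J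
  have hne : NeZero l := ⟨hl.ne_zero⟩
  obtain ⟨B, hB⟩ : ∃ B : ℝ, B = J * (l * (2 + 2 * J) + 1 + 2 * l) + 4 * (l : ℝ) ^ 2 := ⟨_, rfl⟩
  have hBl : (l : ℝ) ≤ B := by
    rw [hB]
    have : 0 ≤ (J : ℝ) * (l * (2 + 2 * J) + 1 + 2 * l) := by positivity
    nlinarith
  have hV : ∀ a : ZMod l, ∀ d ∈ Icc 1 J, ∀ θ, ((VC l a d θ : ℝ≥0) : ℝ) ≤ B := by
    intro a d _ θ
    refine le_trans ?_ hBl
    unfold VC
    split_ifs
    · rw [NNReal.coe_natCast]
      exact_mod_cast Nat.sub_le l 1
    · simp
  have hM : ∀ a : ZMod l, ∀ d ∈ Icc 1 J, ∀ θ, |MC l a d θ| ≤ B := by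
    intro a d _ θ
    refine le_trans ?_ hBl
    unfold MC
    split_ifs
    · rw [abs_of_nonneg (by linarith)]
      linarith
    · simp
  choose C hC1 hC using fun a : ZMod l => loc2 n δ J hn (VC l a) (MC l a) B (hl1.trans hBl) (hV a) (hM a) (fun _ : Fin r => ()) f hf hfD
  obtain ⟨Cs, hCs⟩ : ∃ Cs : ℝ, Cs = ∑ a : ZMod l, (C a + |tgt J (VC l a) (MC l a) (fun _ : Fin r => ()) f|) := ⟨_, rfl⟩
  have hle : ∀ a, C a + |tgt J (VC l a) (MC l a) (fun _ : Fin r => ()) f| ≤ Cs := fun a => by
    rw [hCs]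
    exact single_le_sum (f := fun a => C a + |tgt J (VC l a) (MC l a) (fun _ : Fin r => ()) f|)
      (fun i _ => by have := hC1 i; positivity) (mem_univ a)
  have hCs1 : 1 ≤ Cs := by
    have h1 := hle 0
    have h2 := hC1 0
    have h3 := abs_nonneg (tgt J (VC l (0 : ZMod l)) (MC l 0) (fun _ : Fin r => ()) f)
    linarith
  refine ⟨Cs, hCs1, fun p hp hlp => ?_⟩
  have hs := sp_pos p
  have hε0 : 0 < 1 / sp p := by positivity
  have h1 := hle (p : ZMod l)
  have h2 := hC1 (p : ZMod l)
  have h3 := abs_nonneg (tgt J (VC l (p : ZMod l)) (MC l (p : ZMod l)) (fun _ : Fin r => ()) f)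
  obtain ⟨h4, h5⟩ := hC (p : ZMod l) p (psC p l) (good_C l J hl hlp B hBl) (fun i c => TC l (f i) c) (fun i c => l * ZD (f i) c)
    (fun i c => by
      have hfi := mem_Icc.1 (hf i)
      refine (near_C l hl hl2 hlp (f i) hn (by omega) c).trans (add_le_add ?_ le_rfl)
      refine mul_le_mul_of_nonneg_right (mul_le_mul_of_nonneg_right ?_ hε0.le) (Real.sqrt_nonneg _)
      have h6 : ((f i : ℕ) : ℝ) ≤ J := by exact_mod_cast hfi.2
      have h7 : (0 : ℝ) ≤ (f i : ℕ) := Nat.cast_nonneg _
      have h8 : ((f i : ℕ) : ℝ) * (l * (2 + 2 * (f i : ℕ)) + 1 + 2 * l) ≤ J * (l * (2 + 2 * J) + 1 + 2 * l) := by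
        refine mul_le_mul h6 ?_ (by positivity) hJ0
        have : (l : ℝ) * (2 + 2 * (f i : ℕ)) ≤ l * (2 + 2 * J) := mul_le_mul_of_nonneg_left (by linarith) hl0
        linarith
      rw [hB]
      have : 0 ≤ 4 * (l : ℝ) ^ 2 := by positivity
      linarith)
    (fun i => by
      have hfi := mem_Icc.1 (hf i)
      have hB0 : 0 ≤ (J : ℝ) * (l * (2 + 2 * J) + 1 + 2 * l) := by positivity
      refine ⟨fun c => ?_, ?_⟩
      · obtain ⟨h6, h7⟩ := ZD_bd (n := n) (f i) (by omega) c
        refine ⟨mul_nonneg hl0 h6, ?_⟩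
        rw [hB]
        nlinarith
      · have h6 := ZD_av (n := n) (p := p) (δ := δ) (f i) (by omega) (by omega)
        have h7 : (fun c : Mon n δ → ZMod p => (l * ZD (f i) c) ^ 2) = fun c => (l : ℝ) ^ 2 * ZD (f i) c ^ 2 := by
          funext c
          rw [mul_pow]
        rw [h7, av_mul]
        refine (mul_le_mul_of_nonneg_left h6 (by positivity)).trans ?_
        rw [← mul_assoc]
        refine mul_le_mul_of_nonneg_right ?_ (sq_nonneg _)
        rw [hB]
        linarith)
  exact ⟨by linarith, h4.trans (mul_le_mul_of_nonneg_right (by linarith) hε0.le), h5.trans (by linarith)⟩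

end Pool.Agent.W2helper48.JV
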