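import Pool.Agent.W2helper48.JV.Loc

/-!
# Joint moments of the sums of several bounded functions over the closed points of all degrees
-/

set_option autoImplicit false
set_option linter.unusedSectionVars false

namespace Pool.Agent.W2helper48.JV

open Finset Function MeasureTheory ProbabilityTheory
open Q282.CL
open Q282MM (gm)
open Q285HS (Sep sm)
open Pool.Agent.Y722.HS (Mon mev)
open Pool.Agent.W2helper48.JT
open scoped NNReal

lemma gsum_int {Θ : Type} [Fintype Θ] [DecidableEq Θ] (V : Θ → ℝ≥0) (c : Θ → ℝ) (m : ℕ) :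
    Integrable (fun x : Θ → ℝ => (∑ θ, c θ * x θ) ^ m) (Measure.pi fun θ => gaussianReal 0 (V θ)) := by
  have hm : Measurable fun x : Θ → ℝ => ∑ θ, c θ * x θ :=
    Finset.measurable_sum _ fun θ _ => by
      have h := (measurable_pi_apply (X := fun _ : Θ => ℝ) θ).const_mul (c θ)
      exact h
  have h1 := gauss_integrable 0 (∑ θ, NNReal.mk (c θ ^ 2) (sq_nonneg _) * V θ) m
  rw [← gsum_law V c univ] at h1
  exact (integrable_map_measure (g := fun y : ℝ => y ^ m) (by fun_prop) hm.aemeasurable).1 h1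

section

variable {Θ ι : Type} [Fintype Θ] [DecidableEq Θ] [DecidableEq ι]

/-- sums over the labels -/
lemma lab_sum (th : ι → Θ) (s : Finset ι) (a : ι → ℝ) (x : Θ → ℝ) :
    ∑ i ∈ s, a i * x (th i) = ∑ θ, (∑ i ∈ s.filter (fun i => th i = θ), a i) * x θ := by
  rw [← sum_fiberwise s th fun i => a i * x (th i)]
  refine sum_congr rfl fun θ _ => ?_
  rw [sum_mul]
  refine sum_congr rfl fun i hi => ?_
  rw [(mem_filter.1 hi).2]

lemma lab_abs (th : ι → Θ) (s T : Finset ι) :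
    ∑ θ, |∑ i ∈ s.filter (fun i => th i = θ), (if i ∈ T then (-1 : ℝ) else 1)| ≤ s.card := by
  have h1 : ∀ θ ∈ (univ : Finset Θ), |∑ i ∈ s.filter (fun i => th i = θ), (if i ∈ T then (-1 : ℝ) else 1)| ≤ ((s.filter fun i => th i = θ).card : ℝ) := by
    intro θ _
    refine (abs_sum_le_sum_abs _ _).trans ((sum_le_sum (g := fun _ => (1 : ℝ)) fun i _ => ?_).trans (le_of_eq ?_))
    · split_ifs <;> simp
    · rw [sum_const, nsmul_eq_mul, mul_one]
  refine (sum_le_sum h1).trans (le_of_eq ?_)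
  rw [← Nat.cast_sum]
  congr 1
  exact (card_eq_sum_card_fiberwise fun i _ => mem_univ (th i)).symm

end

lemma quad_abs {Θ : Type} [Fintype Θ] [DecidableEq Θ] (c : Θ → ℝ) (a : Θ → Θ → ℝ) (V : Θ → ℝ) (η : ℝ)
    (h : ∀ θ θ', |a θ θ' - if θ = θ' then V θ else 0| ≤ η) :
    |∑ θ, ∑ θ', c θ * c θ' * a θ θ' - ∑ θ, c θ ^ 2 * V θ| ≤ (∑ θ, |c θ|) ^ 2 * η := by
  have h1 : ∑ θ, c θ ^ 2 * V θ = ∑ θ, ∑ θ', c θ * c θ' * (if θ = θ' then V θ else 0) := by
    refine sum_congr rfl fun θ _ => ?_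
    rw [sum_eq_single θ]
    · rw [if_pos rfl]
      ring
    · intro θ' _ hne
      rw [if_neg (Ne.symm hne), mul_zero]
    · intro h
      exact absurd (mem_univ _) h
  rw [h1, ← sum_sub_distrib]
  have h2 : ∀ θ ∈ (univ : Finset Θ), |∑ θ', c θ * c θ' * a θ θ' - ∑ θ', c θ * c θ' * (if θ = θ' then V θ else 0)| ≤ ∑ θ', |c θ| * |c θ'| * η := by
    intro θ _
    rw [← sum_sub_distrib]
    refine (abs_sum_le_sum_abs _ _).trans (sum_le_sum fun θ' _ => ?_)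
    rw [← mul_sub, abs_mul, abs_mul]
    exact mul_le_mul_of_nonneg_left (h θ θ') (by positivity)
  refine (abs_sum_le_sum_abs _ _).trans ((sum_le_sum h2).trans (le_of_eq ?_))
  rw [sq, sum_mul_sum, sum_mul]
  refine sum_congr rfl fun θ _ => ?_
  rw [sum_mul]

/-- the conditions for the local functions -/
structure Good2 (p J : ℕ) [Fact p.Prime] {Θ : Type} [DecidableEq Θ] (ψ : Θ → ∀ d, EE p d → ℝ) (V : ℕ → Θ → ℝ≥0) (B : ℝ) : Prop where
  bd : ∀ d ∈ Icc 1 J, ∀ θ z, |ψ θ d z| ≤ B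
  mean : ∀ d ∈ Icc 1 J, ∀ θ, av (ψ θ d) = 0
  cov : ∀ d ∈ Icc 1 J, ∀ θ θ', |av (fun z => ψ θ d z * ψ θ' d z) - if θ = θ' then (V d θ : ℝ) else 0| ≤ B * (1 / sp p)

/-- the sums -/
noncomputable def YY {n p δ : ℕ} [Fact p.Prime] {Θ : Type} (ψ : Θ → ∀ d, EE p d → ℝ) (θ : Θ) (d : ℕ) (c : Mon n δ → ZMod p) : ℝ := Y1 d (ψ θ d) c

lemma Y1_sum {n p δ : ℕ} [Fact p.Prime] {ι : Type} (d : ℕ) (s : Finset ι) (a : ι → ℝ) (φ : ι → EE p d → ℝ) (c : Mon n δ → ZMod p) :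
    Y1 d (fun z => ∑ i ∈ s, a i * φ i z) c = ∑ i ∈ s, a i * Y1 d (φ i) c := by
  unfold Y1 sm
  rw [sum_comm, mul_sum, Finset.sum_div]
  refine sum_congr rfl fun i _ => ?_
  rw [← mul_sum]
  ring

/-- **one degree** -/
theorem blk0 (n δ J : ℕ) (hn : 1 ≤ n) {Θ : Type} [Fintype Θ] [DecidableEq Θ] (V : ℕ → Θ → ℝ≥0) (B : ℝ) (hB : 1 ≤ B)
    (hV : ∀ d ∈ Icc 1 J, ∀ θ, (V d θ : ℝ) ≤ B) : ∃ C : ℝ, 1 ≤ C ∧ ∀ (p : ℕ) [Fact p.Prime] (ψ : Θ → ∀ d, EE p d → ℝ), Good2 p J ψ V B →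
      ∀ d ∈ Icc 1 J, ∀ (ι : Type) [DecidableEq ι] (th : ι → Θ) (s : Finset ι), d * s.card ≤ δ + 1 →
        |av (fun c : Mon n δ → ZMod p => ∏ i ∈ s, YY ψ (th i) d c) -
          ∫ x : Θ → ℝ, ∏ i ∈ s, x (th i) ∂(Measure.pi fun θ => gaussianReal 0 ((d : ℝ≥0) * V d θ))| ≤ C * (1 / sp p) := by
  obtain ⟨B₁, hB₁⟩ : ∃ B₁ : ℝ, B₁ = ((δ : ℝ) + 1) ^ 2 * B := ⟨_, rfl⟩
  have hδ1 : (1 : ℝ) ≤ (δ : ℝ) + 1 := by
    have : (0 : ℝ) ≤ δ := Nat.cast_nonneg δ
    linarith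
  have hδ2 : ((δ : ℝ) + 1) ≤ ((δ : ℝ) + 1) ^ 2 := by nlinarith
  have hB₁1 : 1 ≤ B₁ := by
    rw [hB₁]
    nlinarith
  obtain ⟨C, hC1, hC⟩ := mom_bd n δ J hn B₁ hB₁1
  refine ⟨C, hC1, fun p hp ψ hg d hd ι _ th s hs => ?_⟩
  have hsp := sp_pos p
  have hε0 : 0 < 1 / sp p := by positivity
  have hd1 : 1 ≤ d := (mem_Icc.1 hd).1
  have hsδ : s.card ≤ δ + 1 := le_trans (Nat.le_mul_of_pos_left _ hd1) hs
  have hsδ' : (s.card : ℝ) ≤ (δ : ℝ) + 1 := by exact_mod_cast hsδ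
  obtain ⟨c, hc⟩ : ∃ c : Finset ι → Θ → ℝ, c = fun T θ => ∑ i ∈ s.filter (fun i => th i = θ), (if i ∈ T then (-1 : ℝ) else 1) := ⟨_, rfl⟩
  have hcabs : ∀ T, ∑ θ, |c T θ| ≤ (δ : ℝ) + 1 := fun T => by
    rw [hc]
    exact (lab_abs th s T).trans hsδ'
  have hc0 : ∀ T, 0 ≤ ∑ θ, |c T θ| := fun T => sum_nonneg fun _ _ => abs_nonneg _
  -- one linear combination
  have key : ∀ T ∈ s.powerset, |av (fun u : Mon n δ → ZMod p => (∑ i ∈ s, (if i ∈ T then -1 else 1) * YY ψ (th i) d u) ^ s.card) -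
      ∫ x : Θ → ℝ, (∑ i ∈ s, (if i ∈ T then -1 else 1) * x (th i)) ^ s.card ∂(Measure.pi fun θ => gaussianReal 0 ((d : ℝ≥0) * V d θ))| ≤ C * (1 / sp p) := by
    intro T _
    have h1 : ∀ x : Θ → ℝ, ∑ i ∈ s, (if i ∈ T then -1 else 1) * x (th i) = ∑ θ, c T θ * x θ := by
      intro x
      rw [hc]
      exact lab_sum th s _ x
    have h2 : ∀ u : Mon n δ → ZMod p, ∑ i ∈ s, (if i ∈ T then -1 else 1) * YY ψ (th i) d u = Y1 d (fun z => ∑ θ, c T θ * ψ θ d z) u := by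
      intro u
      rw [h1 fun θ => YY ψ θ d u, Y1_sum]
      rfl
    simp only [h1, h2]
    rw [gsum]
    have h3 : ∑ θ, c T θ ^ 2 * (((d : ℝ≥0) * V d θ : ℝ≥0) : ℝ) = d * ∑ θ, c T θ ^ 2 * (V d θ : ℝ) := by
      rw [mul_sum]
      refine sum_congr rfl fun θ _ => ?_
      push_cast
      ring
    rw [h3]
    refine hC p d hd (fun z => ∑ θ, c T θ * ψ θ d z) (∑ θ, c T θ ^ 2 * (V d θ : ℝ)) (fun z => ?_) ?_ ?_ ?_ ?_ s.card hs
    · refine (abs_sum_le_sum_abs _ _).trans ?_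
      have h4 : ∀ θ ∈ (univ : Finset Θ), |c T θ * ψ θ d z| ≤ |c T θ| * B := by
        intro θ _
        rw [abs_mul]
        exact mul_le_mul_of_nonneg_left (hg.bd d hd θ z) (abs_nonneg _)
      refine (sum_le_sum h4).trans ?_
      rw [← sum_mul, hB₁]
      refine mul_le_mul_of_nonneg_right ((hcabs T).trans hδ2) (by linarith)
    · have h4 : (fun z => ∑ θ, c T θ * ψ θ d z) = fun z => ∑ θ ∈ univ, c T θ * ψ θ d z := rfl
      rw [h4, av_sum]
      refine sum_eq_zero fun θ _ => ?_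
      rw [av_mul, hg.mean d hd θ, mul_zero]
    · exact sum_nonneg fun θ _ => mul_nonneg (sq_nonneg _) (NNReal.coe_nonneg _)
    · have h4 : ∀ θ ∈ (univ : Finset Θ), c T θ ^ 2 * (V d θ : ℝ) ≤ c T θ ^ 2 * B := fun θ _ => mul_le_mul_of_nonneg_left (hV d hd θ) (sq_nonneg _)
      refine (sum_le_sum h4).trans ?_
      rw [← sum_mul, hB₁]
      refine mul_le_mul_of_nonneg_right ?_ (by linarith)
      have h5 : ∑ θ, c T θ ^ 2 ≤ (∑ θ, |c T θ|) ^ 2 := by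
        rw [sq (∑ θ, |c T θ|), sum_mul]
        refine sum_le_sum fun θ _ => ?_
        rw [← sq_abs, sq]
        exact mul_le_mul_of_nonneg_left (single_le_sum (f := fun θ => |c T θ|) (fun _ _ => abs_nonneg _) (mem_univ θ)) (abs_nonneg _)
      exact h5.trans (pow_le_pow_left₀ (hc0 T) (hcabs T) 2)
    · have h4 : av (fun z => (∑ θ, c T θ * ψ θ d z) ^ 2) = ∑ θ, ∑ θ', c T θ * c T θ' * av (fun z => ψ θ d z * ψ θ' d z) := by
        have h5 : (fun z => (∑ θ, c T θ * ψ θ d z) ^ 2) = fun z => ∑ θ, ∑ θ', c T θ * c T θ' * (ψ θ d z * ψ θ' d z) := by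
          funext z
          rw [sq, sum_mul_sum]
          refine sum_congr rfl fun θ _ => sum_congr rfl fun θ' _ => ?_
          ring
        rw [h5, av_sum]
        refine sum_congr rfl fun θ _ => ?_
        rw [av_sum]
        refine sum_congr rfl fun θ' _ => ?_
        rw [av_mul]
      rw [h4]
      refine (quad_abs (c T) _ (fun θ => (V d θ : ℝ)) (B * (1 / sp p)) (fun θ θ' => hg.cov d hd θ θ')).trans ?_
      rw [← mul_assoc, hB₁]
      refine mul_le_mul_of_nonneg_right (mul_le_mul_of_nonneg_right ?_ (by linarith)) hε0.le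
      exact pow_le_pow_left₀ (hc0 T) (hcabs T) 2
  -- polarization
  obtain ⟨a, ha⟩ : ∃ a : ℝ, a = (2 ^ s.card * (s.card.factorial : ℝ))⁻¹ := ⟨_, rfl⟩
  have ha0 : 0 ≤ a := by
    rw [ha]
    positivity
  have e1 : av (fun u : Mon n δ → ZMod p => ∏ i ∈ s, YY ψ (th i) d u) =
      ∑ T ∈ s.powerset, a * (-1) ^ T.card * av (fun u : Mon n δ → ZMod p => (∑ i ∈ s, (if i ∈ T then -1 else 1) * YY ψ (th i) d u) ^ s.card) := by
    have h1 : (fun u : Mon n δ → ZMod p => ∏ i ∈ s, YY ψ (th i) d u) =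
        fun u => ∑ T ∈ s.powerset, a * (-1) ^ T.card * (∑ i ∈ s, (if i ∈ T then -1 else 1) * YY ψ (th i) d u) ^ s.card := by
      funext u
      rw [polar' (fun i => YY ψ (th i) d u) s, ← ha, mul_sum]
      refine sum_congr rfl fun T _ => ?_
      ring
    rw [h1, av_sum]
    refine sum_congr rfl fun T _ => ?_
    rw [av_mul]
  have e2 : ∫ x : Θ → ℝ, ∏ i ∈ s, x (th i) ∂(Measure.pi fun θ => gaussianReal 0 ((d : ℝ≥0) * V d θ)) =
      ∑ T ∈ s.powerset, a * (-1) ^ T.card * ∫ x : Θ → ℝ, (∑ i ∈ s, (if i ∈ T then -1 else 1) * x (th i)) ^ s.card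
        ∂(Measure.pi fun θ => gaussianReal 0 ((d : ℝ≥0) * V d θ)) := by
    have h1 : (fun x : Θ → ℝ => ∏ i ∈ s, x (th i)) =
        fun x => ∑ T ∈ s.powerset, a * (-1) ^ T.card * (∑ i ∈ s, (if i ∈ T then -1 else 1) * x (th i)) ^ s.card := by
      funext x
      rw [polar' (fun i => x (th i)) s, ← ha, mul_sum]
      refine sum_congr rfl fun T _ => ?_
      ring
    rw [h1, integral_finsetSum]
    · refine sum_congr rfl fun T _ => ?_
      rw [integral_const_mul]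
    · intro T _
      refine Integrable.const_mul ?_ _
      have h2 : (fun x : Θ → ℝ => (∑ i ∈ s, (if i ∈ T then -1 else 1) * x (th i)) ^ s.card) =
          fun x => (∑ θ, (∑ i ∈ s.filter (fun i => th i = θ), (if i ∈ T then (-1 : ℝ) else 1)) * x θ) ^ s.card := by
        funext x
        rw [lab_sum]
      rw [h2]
      exact gsum_int _ _ _
  rw [e1, e2, ← sum_sub_distrib]
  refine (abs_sum_le_sum_abs _ _).trans ?_
  have h3 : ∀ T ∈ s.powerset, |a * (-1) ^ T.card * av (fun u : Mon n δ → ZMod p => (∑ i ∈ s, (if i ∈ T then -1 else 1) * YY ψ (th i) d u) ^ s.card) -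
      a * (-1) ^ T.card * ∫ x : Θ → ℝ, (∑ i ∈ s, (if i ∈ T then -1 else 1) * x (th i)) ^ s.card
        ∂(Measure.pi fun θ => gaussianReal 0 ((d : ℝ≥0) * V d θ))| ≤ a * (C * (1 / sp p)) := by
    intro T hT
    rw [← mul_sub, abs_mul, abs_mul, abs_pow, abs_neg, abs_one, one_pow, mul_one, abs_of_nonneg ha0]
    exact mul_le_mul_of_nonneg_left (key T hT) ha0
  refine (sum_le_sum h3).trans ?_
  rw [sum_const, card_powerset, nsmul_eq_mul]
  have h4 : ((2 ^ s.card : ℕ) : ℝ) * a ≤ 1 := by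
    rw [ha]
    push_cast
    have h5 : (1 : ℝ) ≤ s.card.factorial := by exact_mod_cast Nat.succ_le_of_lt (Nat.factorial_pos _)
    have h6 : (0 : ℝ) < 2 ^ s.card := by positivity
    rw [mul_inv, ← mul_assoc, mul_inv_cancel₀ h6.ne', one_mul]
    exact inv_le_one_of_one_le₀ h5
  rw [← mul_assoc]
  refine (mul_le_mul_of_nonneg_right h4 (by positivity)).trans (le_of_eq (one_mul _))

/-- the joint moment of normal variables in degree `d` -/
noncomputable def tg {Θ ι : Type} [Fintype Θ] (V : ℕ → Θ → ℝ≥0) (M : ℕ → Θ → ℝ) (d : ℕ) (th : ι → Θ) (s : Finset ι) : ℝ :=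
  ∫ x : Θ → ℝ, ∏ i ∈ s, (x (th i) + M d (th i)) ∂(Measure.pi fun θ => gaussianReal 0 ((d : ℝ≥0) * V d θ))

lemma prod_int {Θ ι : Type} [Fintype Θ] [DecidableEq Θ] [DecidableEq ι] (V : Θ → ℝ≥0) (th : ι → Θ) (s : Finset ι) :
    Integrable (fun x : Θ → ℝ => ∏ i ∈ s, x (th i)) (Measure.pi fun θ => gaussianReal 0 (V θ)) := by
  have h1 : (fun x : Θ → ℝ => ∏ i ∈ s, x (th i)) =
      fun x => ∑ T ∈ s.powerset, ((2 ^ s.card * (s.card.factorial : ℝ))⁻¹ * (-1) ^ T.card) *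
        (∑ θ, (∑ i ∈ s.filter (fun i => th i = θ), (if i ∈ T then (-1 : ℝ) else 1)) * x θ) ^ s.card := by
    funext x
    rw [polar' (fun i => x (th i)) s, mul_sum]
    refine sum_congr rfl fun T _ => ?_
    rw [lab_sum]
    ring
  rw [h1]
  exact integrable_finsetSum _ fun T _ => (gsum_int _ _ _).const_mul _

/-- **one degree, with means** -/
theorem blk (n δ J : ℕ) (hn : 1 ≤ n) {Θ : Type} [Fintype Θ] [DecidableEq Θ] (V : ℕ → Θ → ℝ≥0) (M : ℕ → Θ → ℝ) (B : ℝ) (hB : 1 ≤ B)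
    (hV : ∀ d ∈ Icc 1 J, ∀ θ, (V d θ : ℝ) ≤ B) (hM : ∀ d ∈ Icc 1 J, ∀ θ, |M d θ| ≤ B) : ∃ C : ℝ, 1 ≤ C ∧
    ∀ (p : ℕ) [Fact p.Prime] (ψ : Θ → ∀ d, EE p d → ℝ), Good2 p J ψ V B →
      ∀ d ∈ Icc 1 J, ∀ (ι : Type) [DecidableEq ι] (th : ι → Θ) (s : Finset ι), d * s.card ≤ δ + 1 →
        |av (fun c : Mon n δ → ZMod p => ∏ i ∈ s, (YY ψ (th i) d c + M d (th i))) - tg V M d th s| ≤ C * (1 / sp p) := by
  obtain ⟨C, hC1, hC⟩ := blk0 n δ J hn V B hB hV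
  refine ⟨(2 * B) ^ (δ + 1) * C, ?_, fun p hp ψ hg d hd ι _ th s hs => ?_⟩
  · have : 1 ≤ (2 * B) ^ (δ + 1) := one_le_pow₀ (by linarith)
    nlinarith
  have hsp := sp_pos p
  have hε0 : 0 < 1 / sp p := by positivity
  have hd1 : 1 ≤ d := (mem_Icc.1 hd).1
  have hsδ : s.card ≤ δ + 1 := le_trans (Nat.le_mul_of_pos_left _ hd1) hs
  have e1 : av (fun c : Mon n δ → ZMod p => ∏ i ∈ s, (YY ψ (th i) d c + M d (th i))) =
      ∑ t ∈ s.powerset, (∏ i ∈ s \ t, M d (th i)) * av (fun c : Mon n δ → ZMod p => ∏ i ∈ t, YY ψ (th i) d c) := by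
    have h1 : (fun c : Mon n δ → ZMod p => ∏ i ∈ s, (YY ψ (th i) d c + M d (th i))) =
        fun c => ∑ t ∈ s.powerset, (∏ i ∈ s \ t, M d (th i)) * ∏ i ∈ t, YY ψ (th i) d c := by
      funext c
      rw [prod_add]
      exact sum_congr rfl fun t _ => mul_comm _ _
    rw [h1, av_sum]
    refine sum_congr rfl fun t _ => ?_
    rw [av_mul]
  have e2 : tg V M d th s = ∑ t ∈ s.powerset, (∏ i ∈ s \ t, M d (th i)) *
      ∫ x : Θ → ℝ, ∏ i ∈ t, x (th i) ∂(Measure.pi fun θ => gaussianReal 0 ((d : ℝ≥0) * V d θ)) := by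
    unfold tg
    have h1 : (fun x : Θ → ℝ => ∏ i ∈ s, (x (th i) + M d (th i))) = fun x => ∑ t ∈ s.powerset, (∏ i ∈ s \ t, M d (th i)) * ∏ i ∈ t, x (th i) := by
      funext x
      rw [prod_add]
      exact sum_congr rfl fun t _ => mul_comm _ _
    rw [h1, integral_finsetSum]
    · refine sum_congr rfl fun t _ => ?_
      rw [integral_const_mul]
    · exact fun t _ => (prod_int _ th t).const_mul _
  rw [e1, e2, ← sum_sub_distrib]
  refine (abs_sum_le_sum_abs _ _).trans ?_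
  have h3 : ∀ t ∈ s.powerset, |(∏ i ∈ s \ t, M d (th i)) * av (fun c : Mon n δ → ZMod p => ∏ i ∈ t, YY ψ (th i) d c) -
      (∏ i ∈ s \ t, M d (th i)) * ∫ x : Θ → ℝ, ∏ i ∈ t, x (th i) ∂(Measure.pi fun θ => gaussianReal 0 ((d : ℝ≥0) * V d θ))| ≤
        B ^ (δ + 1) * (C * (1 / sp p)) := by
    intro t ht
    rw [mem_powerset] at ht
    rw [← mul_sub, abs_mul, abs_prod]
    refine mul_le_mul ?_ (hC p ψ hg d hd ι th t ((Nat.mul_le_mul_left d (card_le_card ht)).trans hs)) (abs_nonneg _) (by positivity)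
    refine (prod_le_prod (fun _ _ => abs_nonneg _) fun i _ => hM d hd (th i)).trans ?_
    rw [prod_const]
    exact pow_le_pow_right₀ hB ((card_le_card sdiff_subset).trans hsδ)
  refine (sum_le_sum h3).trans ?_
  rw [sum_const, card_powerset, nsmul_eq_mul]
  push_cast
  have h4 : (2 : ℝ) ^ s.card ≤ 2 ^ (δ + 1) := pow_le_pow_right₀ (by norm_num) hsδ
  have h5 : (2 * B) ^ (δ + 1) * C * (1 / sp p) = 2 ^ (δ + 1) * (B ^ (δ + 1) * (C * (1 / sp p))) := by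
    rw [mul_pow]
    ring
  rw [h5]
  exact mul_le_mul_of_nonneg_right h4 (by positivity)

end Pool.Agent.W2helper48.JV
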