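import Pool.Agent.W2helper48.JV.Joint

/-!
# All degrees together
-/

set_option autoImplicit false
set_option linter.unusedSectionVars false

namespace Pool.Agent.W2helper48.JV

open Finset Function MeasureTheory ProbabilityTheory
open Q282.CL
open Q282MM (gm)
open Q285HS (Sep sm)
open Pool.Agent.Y722.HS (Mon mev)
open Pool.Agent.W2helper48.JT
open scoped NNReal

section

variable {ι K B : Type} [AddCommGroup K] [Fintype K] [AddCommGroup B] {e : ι → K →+ B} {A : Finset ι}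

lemma Dep_prod {α : Type} (s : Finset α) (h : α → K → ℝ) (hh : ∀ i ∈ s, Dep e A 1 (h i)) : Dep e A s.card fun c => ∏ i ∈ s, h i c := by
  classical
  induction s using Finset.induction_on with
  | empty =>
    simp only [prod_empty, card_empty]
    exact Dep.const 0 1
  | insert a s ha ih =>
    simp only [prod_insert ha]
    rw [card_insert_of_notMem ha, add_comm]
    exact (hh a (mem_insert_self a s)).mul (ih fun i hi => hh i (mem_insert_of_mem hi))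

lemma Dep_sum {α : Type} (s : Finset α) (k : ℕ) (h : α → K → ℝ) (hh : ∀ i ∈ s, Dep e A k (h i)) : Dep e A k fun c => ∑ i ∈ s, h i c := by
  classical
  induction s using Finset.induction_on with
  | empty =>
    simp only [sum_empty]
    exact Dep.const k 0
  | insert a s ha ih =>
    simp only [sum_insert ha]
    exact (hh a (mem_insert_self a s)).add (ih fun i hi => hh i (mem_insert_of_mem hi))

lemma Dep_pow (m k : ℕ) {h : K → ℝ} (hh : Dep e A m h) : Dep e A (k * m) fun c => h c ^ k := by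
  induction k with
  | zero =>
    simp only [pow_zero, zero_mul]
    exact Dep.const 0 1
  | succ k ih =>
    simp only [pow_succ]
    rw [Nat.succ_mul]
    exact ih.mul hh

end

/-- the target -/
noncomputable def tgt {Θ ι : Type} [Fintype Θ] [Fintype ι] (J : ℕ) (V : ℕ → Θ → ℝ≥0) (M : ℕ → Θ → ℝ) (th : ι → Θ) (f : ι → ℕ) : ℝ :=
  ∏ d ∈ Icc 1 J, tg V M d th (univ.filter fun i => f i = d)

/-- the sum of the squares in one degree -/
noncomputable def WW {n p δ : ℕ} [Fact p.Prime] {Θ : Type} [Fintype Θ] (ψ : Θ → ∀ d, EE p d → ℝ) (d : ℕ) (c : Mon n δ → ZMod p) : ℝ :=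
  ∑ θ, YY ψ θ d c ^ 2

lemma WW_nonneg {n p δ : ℕ} [Fact p.Prime] {Θ : Type} [Fintype Θ] (ψ : Θ → ∀ d, EE p d → ℝ) (d : ℕ) (c : Mon n δ → ZMod p) : 0 ≤ WW ψ d c :=
  sum_nonneg fun _ _ => sq_nonneg _

lemma YY_dep {n p δ : ℕ} [Fact p.Prime] {Θ : Type} (ψ : Θ → ∀ d, EE p d → ℝ) (θ : Θ) (d : ℕ) :
    Dep (evd (p := p) (n := n) (δ := δ) d) (CP n p d) 1 fun c => YY ψ θ d c := by
  have h1 := (Dep.sm (e := evd (p := p) (n := n) (δ := δ) d) (A := CP n p d) fun _ => ψ θ d).smul ((d : ℝ) / sp p ^ (d * n))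
  have h2 : (fun c => (d : ℝ) / sp p ^ (d * n) * sm (evd (p := p) (n := n) (δ := δ) d) (CP n p d) (fun _ => ψ θ d) c) = fun c => YY ψ θ d c := by
    funext c
    unfold YY Y1
    ring
  rwa [h2] at h1

/-- **joint moments** -/
theorem joint2 (n δ J : ℕ) (hn : 1 ≤ n) {Θ : Type} [Fintype Θ] [DecidableEq Θ] (V : ℕ → Θ → ℝ≥0) (M : ℕ → Θ → ℝ) (B : ℝ) (hB : 1 ≤ B)
    (hV : ∀ d ∈ Icc 1 J, ∀ θ, (V d θ : ℝ) ≤ B) (hM : ∀ d ∈ Icc 1 J, ∀ θ, |M d θ| ≤ B) {ι : Type} [Fintype ι] [DecidableEq ι]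
    (th : ι → Θ) (f : ι → ℕ) (hf : ∀ i, f i ∈ Icc 1 J) (hfD : ∑ i, f i ≤ δ + 1) : ∃ C : ℝ, 1 ≤ C ∧
    ∀ (p : ℕ) [Fact p.Prime] (ψ : Θ → ∀ d, EE p d → ℝ), Good2 p J ψ V B →
      |av (fun c : Mon n δ → ZMod p => ∏ i, (YY ψ (th i) (f i) c + M (f i) (th i))) - tgt J V M th f| ≤ C * (1 / sp p) := by
  obtain ⟨K, hK1, hK⟩ := blk n δ J hn V M B hB hV hM
  obtain ⟨g, hg⟩ : ∃ g : ℕ → Finset ι, g = fun d => univ.filter fun i => f i = d := ⟨_, rfl⟩
  obtain ⟨R, hR⟩ : ∃ R : ℕ → ℝ, R = fun d => |tg V M d th (g d)| + K := ⟨_, rfl⟩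
  have hR0 : ∀ j, 0 ≤ R j := fun j => by
    rw [hR]
    positivity
  obtain ⟨C₁, hC₁⟩ : ∃ C₁ : ℝ, C₁ = ∑ k ∈ Icc 1 J, K * ∏ j ∈ (Icc 1 J).erase k, R j := ⟨_, rfl⟩
  have hC₁0 : 0 ≤ C₁ := by
    rw [hC₁]
    exact sum_nonneg fun k _ => mul_nonneg (by positivity) (prod_nonneg fun j _ => hR0 j)
  refine ⟨1 + C₁, by linarith, fun p hp ψ hgood => ?_⟩
  have hs := sp_pos p
  have hε0 : 0 < 1 / sp p := by positivity
  have hε1 : 1 / sp p ≤ 1 := by
    rw [div_le_one hs]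
    exact (one_lt_sp p).le
  have hJ := jsep (p := p) (n := n) (δ := δ) J
  have hmaps : ∀ i ∈ (univ : Finset ι), f i ∈ Icc 1 J := fun i _ => hf i
  have h1 : (fun c : Mon n δ → ZMod p => ∏ i, (YY ψ (th i) (f i) c + M (f i) (th i))) =
      fun c => ∏ d ∈ Icc 1 J, ∏ i ∈ g d, (YY ψ (th i) d c + M d (th i)) := by
    funext c
    rw [← prod_fiberwise_of_maps_to hmaps]
    refine prod_congr rfl fun d _ => ?_
    rw [hg]
    refine prod_congr rfl fun i hi => ?_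
    rw [(mem_filter.1 hi).2]
  have h2 : ∑ d ∈ Icc 1 J, d * (g d).card ≤ δ + 1 := by
    refine le_trans (le_of_eq ?_) hfD
    rw [← sum_fiberwise_of_maps_to hmaps]
    refine sum_congr rfl fun d _ => ?_
    rw [hg, sum_congr rfl (g := fun _ => d) fun i hi => (mem_filter.1 hi).2, sum_const, smul_eq_mul, mul_comm]
  rw [h1, av_dep hJ (fun d => (g d).card) h2 (fun d c => ∏ i ∈ g d, (YY ψ (th i) d c + M d (th i))) fun d _ =>
    Dep_prod (g d) _ fun i _ => (YY_dep ψ (th i) d).add (Dep.const 1 (M d (th i)))]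
  unfold tgt
  have h3 : ∀ d ∈ Icc 1 J, |av (fun c : Mon n δ → ZMod p => ∏ i ∈ g d, (YY ψ (th i) d c + M d (th i))) - tg V M d th (g d)| ≤ K * (1 / sp p) := by
    intro d hd
    refine hK p ψ hgood d hd ι th (g d) ?_
    exact (single_le_sum (f := fun d => d * (g d).card) (fun _ _ => Nat.zero_le _) hd).trans h2
  have h4 : ∀ d ∈ Icc 1 J, |av (fun c : Mon n δ → ZMod p => ∏ i ∈ g d, (YY ψ (th i) d c + M d (th i)))| ≤ R d := by
    intro d hd
    have h5 := h3 d hd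
    have h6 : K * (1 / sp p) ≤ K := by nlinarith
    have h7 := abs_sub_abs_le_abs_sub (av (fun c : Mon n δ → ZMod p => ∏ i ∈ g d, (YY ψ (th i) d c + M d (th i)))) (tg V M d th (g d))
    rw [hR]
    dsimp only
    linarith
  have h5 : ∀ d ∈ Icc 1 J, |tg V M d th (g d)| ≤ R d := by
    intro d _
    rw [hR]
    dsimp only
    linarith
  have h0 : ∏ d ∈ Icc 1 J, tg V M d th (univ.filter fun i => f i = d) = ∏ d ∈ Icc 1 J, tg V M d th (g d) := by rw [hg]
  rw [h0]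
  refine (prod_near (Icc 1 J) _ _ R h4 h5).trans ?_
  have h6 : ∑ k ∈ Icc 1 J, |av (fun c : Mon n δ → ZMod p => ∏ i ∈ g k, (YY ψ (th i) k c + M k (th i))) - tg V M k th (g k)| *
      ∏ i ∈ (Icc 1 J).erase k, R i ≤ C₁ * (1 / sp p) := by
    rw [hC₁, sum_mul]
    refine sum_le_sum fun k hk => ?_
    have h7 := mul_le_mul_of_nonneg_right (h3 k hk) (prod_nonneg fun i _ => hR0 i : 0 ≤ ∏ i ∈ (Icc 1 J).erase k, R i)
    refine h7.trans (le_of_eq ?_)
    ring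
  refine h6.trans (mul_le_mul_of_nonneg_right (by linarith) hε0.le)

/-- **even moments** -/
theorem env2 (n δ J : ℕ) (hn : 1 ≤ n) {Θ : Type} [Fintype Θ] [DecidableEq Θ] (V : ℕ → Θ → ℝ≥0) (B : ℝ) (hB : 1 ≤ B)
    (hV : ∀ d ∈ Icc 1 J, ∀ θ, (V d θ : ℝ) ≤ B) : ∃ C : ℝ, 1 ≤ C ∧
    ∀ (p : ℕ) [Fact p.Prime] (ψ : Θ → ∀ d, EE p d → ℝ), Good2 p J ψ V B → ∀ k : ℕ → ℕ, ∑ j ∈ Icc 1 J, j * (2 * k j) ≤ δ + 1 →
      av (fun c : Mon n δ → ZMod p => ∏ j ∈ Icc 1 J, Real.sqrt (WW ψ j c) ^ (2 * k j)) ≤ C := by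
  classical
  obtain ⟨K, hK1, hK⟩ := mom_bd n δ J hn (B + B) (by linarith)
  obtain ⟨c₀, hc₀⟩ : ∃ c₀ : ℝ, c₀ = (Fintype.card Θ : ℝ) + 1 := ⟨_, rfl⟩
  have hc₀1 : 1 ≤ c₀ := by
    rw [hc₀]
    have : (0 : ℝ) ≤ Fintype.card Θ := Nat.cast_nonneg _
    linarith
  obtain ⟨G, hG⟩ : ∃ G : ℝ, G = c₀ ^ (δ + 1) * (c₀ * (∑ i ∈ range (δ + 2), (gm i : ℝ) * (J * B + 1) ^ (δ + 1) + K)) := ⟨_, rfl⟩
  have hJ0 : (0 : ℝ) ≤ J := Nat.cast_nonneg J
  have hJB : 1 ≤ J * B + 1 := by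
    have : 0 ≤ J * B := by positivity
    linarith
  have hS0 : 0 ≤ ∑ i ∈ range (δ + 2), (gm i : ℝ) * (J * B + 1) ^ (δ + 1) := sum_nonneg fun i _ => by positivity
  have hG1 : 1 ≤ G := by
    rw [hG]
    have h1 : 1 ≤ c₀ ^ (δ + 1) := one_le_pow₀ hc₀1
    have h2 : 1 ≤ c₀ * (∑ i ∈ range (δ + 2), (gm i : ℝ) * (J * B + 1) ^ (δ + 1) + K) := by nlinarith
    nlinarith
  refine ⟨G ^ J, one_le_pow₀ hG1, fun p hp ψ hgood k hk => ?_⟩
  have hs := sp_pos p
  have hε0 : 0 < 1 / sp p := by positivity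
  have hε1 : 1 / sp p ≤ 1 := by
    rw [div_le_one hs]
    exact (one_lt_sp p).le
  have hJ := jsep (p := p) (n := n) (δ := δ) J
  have h1 : ∀ (j : ℕ) (c : Mon n δ → ZMod p), Real.sqrt (WW ψ j c) ^ (2 * k j) = WW ψ j c ^ k j := by
    intro j c
    rw [pow_mul, Real.sq_sqrt (WW_nonneg ψ j c)]
  simp only [h1]
  have hdep : ∀ d, Dep (evd (p := p) (n := n) (δ := δ) d) (CP n p d) (2 * k d) fun c => WW ψ d c ^ k d := by
    intro d
    have h2 : Dep (evd (p := p) (n := n) (δ := δ) d) (CP n p d) 2 fun c => WW ψ d c := by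
      unfold WW
      exact Dep_sum univ 2 _ fun θ _ => (YY_dep ψ θ d).pow 2
    have h3 := Dep_pow 2 (k d) h2
    rwa [mul_comm] at h3
  rw [av_dep hJ (fun j => 2 * k j) hk (fun j c => WW ψ j c ^ k j) fun d _ => hdep d]
  have h2 : ∀ j ∈ Icc 1 J, av (fun c : Mon n δ → ZMod p => WW ψ j c ^ k j) ≤ G := by
    intro j hj
    have hj1 : 1 ≤ j := (mem_Icc.1 hj).1
    have hjJ : (j : ℝ) ≤ J := by exact_mod_cast (mem_Icc.1 hj).2
    have h4 := single_le_sum (f := fun d => d * (2 * k d)) (fun _ _ => Nat.zero_le _) hj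
    have h5 : j * (2 * k j) ≤ δ + 1 := h4.trans hk
    have h6 : 2 * k j ≤ δ + 1 := le_trans (Nat.le_mul_of_pos_left _ hj1) h5
    have h7 : ∀ c : Mon n δ → ZMod p, WW ψ j c ^ k j ≤ c₀ ^ (δ + 1) * (1 + ∑ θ, YY ψ θ j c ^ (2 * k j)) := by
      intro c
      by_cases hΘ : Nonempty Θ
      · obtain ⟨θ₀, _, hθ₀⟩ := exists_max_image (univ : Finset Θ) (fun θ => YY ψ θ j c ^ 2) univ_nonempty
        have h8 : WW ψ j c ≤ c₀ * YY ψ θ₀ j c ^ 2 := by
          unfold WW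
          refine (sum_le_sum fun θ _ => hθ₀ θ (mem_univ θ)).trans ?_
          rw [sum_const, card_univ, nsmul_eq_mul, hc₀]
          nlinarith [sq_nonneg (YY ψ θ₀ j c)]
        refine (pow_le_pow_left₀ (WW_nonneg ψ j c) h8 (k j)).trans ?_
        rw [mul_pow, ← pow_mul]
        have h9 : c₀ ^ k j ≤ c₀ ^ (δ + 1) := pow_le_pow_right₀ hc₀1 (by omega)
        have h10 : YY ψ θ₀ j c ^ (2 * k j) ≤ 1 + ∑ θ, YY ψ θ j c ^ (2 * k j) := by
          have := single_le_sum (f := fun θ => YY ψ θ j c ^ (2 * k j)) (fun θ _ => by rw [pow_mul]; positivity) (mem_univ θ₀)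
          linarith
        refine mul_le_mul h9 h10 (by rw [pow_mul]; positivity) (by positivity)
      · have h8 : (univ : Finset Θ) = ∅ := univ_eq_empty_iff.2 (not_nonempty_iff.1 hΘ)
        unfold WW
        rw [h8, sum_empty, sum_empty, add_zero, mul_one]
        refine le_trans ?_ (one_le_pow₀ hc₀1 : 1 ≤ c₀ ^ (δ + 1))
        exact pow_le_one₀ le_rfl zero_le_one
    refine (av_mono h7).trans ?_
    rw [av_mul, av_add, av_const, av_sum]
    rw [hG]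
    refine mul_le_mul_of_nonneg_left ?_ (by positivity)
    have h8 : ∀ θ ∈ (univ : Finset Θ), av (fun c : Mon n δ → ZMod p => YY ψ θ j c ^ (2 * k j)) ≤
        ∑ i ∈ range (δ + 2), (gm i : ℝ) * (J * B + 1) ^ (δ + 1) + K := by
      intro θ _
      have h9 := hK p j hj (ψ θ j) (V j θ) (fun z => (hgood.bd j hj θ z).trans (by linarith)) (hgood.mean j hj θ) (NNReal.coe_nonneg _)
        ((hV j hj θ).trans (by linarith)) (by
          have h10 := hgood.cov j hj θ θ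
          rw [if_pos rfl] at h10
          have h11 : (fun z => ψ θ j z ^ 2) = fun z => ψ θ j z * ψ θ j z := by
            funext z
            ring
          rw [h11]
          refine h10.trans (mul_le_mul_of_nonneg_right (by linarith) hε0.le)) (2 * k j) h5
      have h10 := (abs_le.1 h9).2
      have h11 : K * (1 / sp p) ≤ K := by nlinarith
      have h12 : (gm (2 * k j) : ℝ) * (j * (V j θ : ℝ)) ^ (2 * k j / 2) ≤ (gm (2 * k j) : ℝ) * (J * B + 1) ^ (δ + 1) := by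
        refine mul_le_mul_of_nonneg_left ?_ (Nat.cast_nonneg _)
        have h13 : j * (V j θ : ℝ) ≤ J * B + 1 := by
          have := mul_le_mul hjJ (hV j hj θ) (NNReal.coe_nonneg _) hJ0
          linarith
        exact (pow_le_pow_left₀ (by positivity) h13 _).trans (pow_le_pow_right₀ hJB (by omega))
      have h13 := single_le_sum (f := fun i => (gm i : ℝ) * (J * B + 1) ^ (δ + 1)) (fun i _ => by positivity) (mem_range.2 (by omega : 2 * k j < δ + 2))
      have h14 : (fun c : Mon n δ → ZMod p => YY ψ θ j c ^ (2 * k j)) = fun c => Y1 j (ψ θ j) c ^ (2 * k j) := rfl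
      rw [h14]
      linarith
    have h9 := sum_le_sum h8
    rw [sum_const, card_univ, nsmul_eq_mul] at h9
    rw [hc₀]
    nlinarith
  calc ∏ j ∈ Icc 1 J, av (fun c : Mon n δ → ZMod p => WW ψ j c ^ k j) ≤ ∏ _j ∈ Icc 1 J, G :=
        prod_le_prod (fun j _ => av_nonneg fun c => pow_nonneg (WW_nonneg ψ j c) _) h2
    _ = G ^ J := by rw [prod_const, Nat.card_Icc, Nat.add_sub_cancel]

end Pool.Agent.W2helper48.JV
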