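import Pool.Agent.W2helper48.JV.Pol
import Pool.Agent.W2helper48.JT.Cnt

/-!
# Joint moments of the sums of several bounded functions over the closed points
-/

set_option autoImplicit false
set_option linter.unusedSectionVars false

namespace Pool.Agent.W2helper48.JV

open Finset Function MeasureTheory ProbabilityTheory
open Q282.CL
open Q282MM (gm)
open Q285HS (Sep sm Loc1 mom_near)
open Pool.Agent.Y722.HS (Mon mev)
open Pool.Agent.W2helper48.JT
open scoped NNReal

/-- powers of near numbers -/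
lemma pow_near (a b R : ℝ) (hR : 1 ≤ R) (ha : |a| ≤ R) (hb : |b| ≤ R) (k : ℕ) : |a ^ k - b ^ k| ≤ k * R ^ k * |a - b| := by
  induction k with
  | zero => simp
  | succ k ih =>
    have h1 : a ^ (k + 1) - b ^ (k + 1) = a * (a ^ k - b ^ k) + b ^ k * (a - b) := by ring
    rw [h1]
    refine (abs_add_le _ _).trans ?_
    rw [abs_mul, abs_mul, abs_pow]
    have h2 : |a| * |a ^ k - b ^ k| ≤ R * (k * R ^ k * |a - b|) := mul_le_mul ha ih (abs_nonneg _) (by linarith)
    have h3 : |b| ^ k * |a - b| ≤ R ^ (k + 1) * |a - b| := by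
      refine mul_le_mul_of_nonneg_right ?_ (abs_nonneg _)
      exact (pow_le_pow_left₀ (abs_nonneg _) hb k).trans (pow_le_pow_right₀ hR (by omega))
    have h4 : ((k + 1 : ℕ) : ℝ) * R ^ (k + 1) * |a - b| = R * (k * R ^ k * |a - b|) + R ^ (k + 1) * |a - b| := by
      push_cast
      ring
    rw [h4]
    linarith

section

variable {n p δ : ℕ} [hp : Fact p.Prime]

lemma CP_le0 (n d : ℕ) (hd : d ≠ 0) : ((CP n p d).card : ℝ) ≤ 2 * sp p ^ (2 * n * d) := by
  refine le_trans ?_ (NN_le d hd)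
  rw [NN_card]
  have h1 : (1 : ℝ) ≤ d := by exact_mod_cast (Nat.pos_of_ne_zero hd)
  have h2 : (0 : ℝ) ≤ (CP n p d).card := Nat.cast_nonneg _
  nlinarith

/-- the normalised sum over the closed points of degree `d` -/
noncomputable def Y1 (d : ℕ) (ψ : EE p d → ℝ) (c : Mon n δ → ZMod p) : ℝ :=
  d * sm (evd (δ := δ) d) (CP n p d) (fun _ => ψ) c / sp p ^ (d * n)

end

/-- **the moments of one sum of a bounded function** -/
theorem mom_bd (n δ J : ℕ) (hn : 1 ≤ n) (B : ℝ) (hB : 1 ≤ B) : ∃ C : ℝ, 1 ≤ C ∧ ∀ (p : ℕ) [Fact p.Prime], ∀ d ∈ Icc 1 J, ∀ (ψ : EE p d → ℝ) (v : ℝ),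
    (∀ z, |ψ z| ≤ B) → av ψ = 0 → 0 ≤ v → v ≤ B → |av (fun z => ψ z ^ 2) - v| ≤ B * (1 / sp p) → ∀ i, d * i ≤ δ + 1 →
      |av (fun c : Mon n δ → ZMod p => Y1 d ψ c ^ i) - gm i * (d * v) ^ (i / 2)| ≤ C * (1 / sp p) := by
  obtain ⟨Cm, hCm, hmom⟩ := mom_near (δ + 1)
  obtain ⟨G, hG⟩ : ∃ G : ℝ, G = ∑ j ∈ range (δ + 2), (gm j : ℝ) := ⟨_, rfl⟩
  have hGj : ∀ j ≤ δ + 1, (gm j : ℝ) ≤ G := fun j hj => by
    rw [hG]
    exact single_le_sum (f := fun j => (gm j : ℝ)) (fun i _ => Nat.cast_nonneg _) (mem_range.2 (by omega))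
  have hG0 : 0 ≤ G := (Nat.cast_nonneg _).trans (hGj 0 (by omega))
  -- all the numbers are at most `R`
  obtain ⟨R, hR⟩ : ∃ R : ℝ, R = 4 * ((J : ℝ) + 1) * B ^ 2 := ⟨_, rfl⟩
  have hJ0 : (0 : ℝ) ≤ J := Nat.cast_nonneg J
  have hB2 : 1 ≤ B ^ 2 := one_le_pow₀ hB
  have hBB : B ≤ B ^ 2 := by nlinarith
  have hR1 : 1 ≤ R := by
    rw [hR]
    nlinarith
  refine ⟨R ^ (δ + 1) * Cm + G * ((δ + 1) * R ^ (δ + 1) * (J * (B + B ^ 2 * (2 + 2 * J)))) + 1, ?_, ?_⟩
  · have h1 : 0 ≤ R ^ (δ + 1) * Cm + G * ((δ + 1) * R ^ (δ + 1) * (J * (B + B ^ 2 * (2 + 2 * J)))) := by positivity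
    linarith
  intro p hp d hd ψ v hψ hψ0 hv0 hvB hψ2 i hi
  have hs := sp_pos p
  have hd1 : 1 ≤ d := (mem_Icc.1 hd).1
  have hdJ : (d : ℝ) ≤ J := by exact_mod_cast (mem_Icc.1 hd).2
  have hd1' : (1 : ℝ) ≤ d := by exact_mod_cast hd1
  have hε0 : 0 < 1 / sp p := by positivity
  have hε1 : 1 / sp p ≤ 1 := by
    rw [div_le_one hs]
    exact (one_lt_sp p).le
  have hi' : i ≤ δ + 1 := le_trans (Nat.le_mul_of_pos_left i hd1) hi
  rcases Nat.eq_zero_or_pos i with rfl | hi0
  · simp only [pow_zero]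
    rw [av_const]
    have : gm 0 = 1 := Q285HS.gm_zero
    rw [this]
    simp only [Nat.cast_one, Nat.zero_div, pow_zero, mul_one, sub_self, abs_zero]
    positivity
  obtain ⟨s, hs'⟩ : ∃ s : ℝ, s = sp p ^ (d * n) := ⟨_, rfl⟩
  have hdn : 1 ≤ d * n := Nat.one_le_iff_ne_zero.2 (Nat.mul_ne_zero (by omega) (by omega))
  have hs1 : 1 ≤ s := by
    rw [hs']
    exact one_le_pow₀ (one_lt_sp p).le
  have hsε : 1 / s ≤ 1 / sp p := by
    rw [hs']
    exact inv_sp_le hdn
  -- the scaled function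
  obtain ⟨φ, hφ⟩ : ∃ φ : EE p d → ℝ, φ = fun z => ψ z / B := ⟨_, rfl⟩
  have hφ1 : ∀ z, |φ z| ≤ 1 := by
    intro z
    rw [hφ]
    dsimp only
    rw [abs_div, abs_of_pos (by linarith : 0 < B), div_le_one (by linarith)]
    exact hψ z
  have hloc : Loc1 φ 1 (av fun z => φ z ^ 2) := by
    refine ⟨?_, rfl, fun j _ => ?_⟩
    · have h1 : φ = fun z => (1 / B) * ψ z := by
        rw [hφ]
        funext z
        ring
      rw [h1, av_mul, hψ0, mul_zero]
    · rw [div_one]
      refine (abs_av_le _).trans ?_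
      have h1 : av (fun z => |φ z ^ j|) ≤ av (fun _ : EE p d => (1 : ℝ)) := av_mono fun z => by
        rw [abs_pow]
        exact pow_le_one₀ (abs_nonneg _) (hφ1 z)
      rwa [av_const] at h1
  have hσ0 : 0 ≤ av fun z => φ z ^ 2 := av_nonneg fun z => sq_nonneg _
  have hσ1 : (av fun z => φ z ^ 2) ≤ 1 := by
    have h1 : av (fun z => φ z ^ 2) ≤ av (fun _ : EE p d => (1 : ℝ)) := av_mono fun z => by
      rw [← sq_abs]
      exact pow_le_one₀ (abs_nonneg _) (hφ1 z)
    rwa [av_const] at h1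
  have hcard : ((CP n p d).card : ℝ) ≤ (2 * s) ^ 2 := by
    refine (CP_le0 n d (by omega)).trans ?_
    have h2 : sp p ^ (2 * n * d) = s ^ 2 := by
      rw [hs', ← pow_mul]
      congr 1
      ring
    rw [h2]
    nlinarith [sq_nonneg s]
  have key := hmom _ (Mon n δ → ZMod p) (EE p d) (evd (δ := δ) d) (fun _ => φ) i 1 (2 * s) (av fun z => φ z ^ 2) le_rfl (by linarith) hσ0
    (by rw [div_one]; exact hσ1) (CP n p d) ((jsep (p := p) (n := n) (δ := δ) J).sep d hd i hi) (fun _ _ => hloc)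
    (by
      have h1 : ((CP n p d).card : ℝ) * (av fun z => φ z ^ 2) ≤ (CP n p d).card * 1 := mul_le_mul_of_nonneg_left hσ1 (Nat.cast_nonneg _)
      linarith) (by rw [one_mul]; exact hcard) i hi' le_rfl
  -- the scaling
  have hY : (fun c : Mon n δ → ZMod p => Y1 d ψ c ^ i) = fun c => (d * B / s) ^ i * sm (evd (δ := δ) d) (CP n p d) (fun _ => φ) c ^ i := by
    funext c
    rw [← mul_pow]
    congr 1
    unfold Y1 sm
    rw [← hs', hφ]
    dsimp only
    rw [← Finset.sum_div]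
    field_simp
  rw [hY, av_mul]
  have hdB0 : 0 ≤ (d * B / s) ^ i := by positivity
  have hdBR : (d : ℝ) * B * 2 ≤ R := by
    rw [hR]
    nlinarith
  have e1 : |(d * B / s) ^ i * av (fun c => sm (evd (δ := δ) d) (CP n p d) (fun _ => φ) c ^ i) -
      (d * B / s) ^ i * ((gm i : ℝ) * ((CP n p d).card * av fun z => φ z ^ 2) ^ (i / 2))| ≤ R ^ (δ + 1) * Cm * (1 / sp p) := by
    rw [← mul_sub, abs_mul, abs_of_nonneg hdB0]
    refine (mul_le_mul_of_nonneg_left key hdB0).trans ?_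
    obtain ⟨k, rfl⟩ : ∃ k, i = k + 1 := ⟨i - 1, by omega⟩
    rw [Nat.add_sub_cancel]
    have h1 : (d * B / s) ^ (k + 1) * (Cm * (2 * s) ^ k) = (d * B) ^ (k + 1) * 2 ^ k * Cm * (1 / s) := by
      rw [div_pow, mul_pow 2 s]
      have : s ≠ 0 := by linarith
      field_simp
      ring
    rw [h1]
    have h2 : (d * B) ^ (k + 1) * 2 ^ k ≤ R ^ (δ + 1) := by
      calc (d * B) ^ (k + 1) * (2 : ℝ) ^ k ≤ (d * B) ^ (k + 1) * 2 ^ (k + 1) := by
            refine mul_le_mul_of_nonneg_left ?_ (by positivity)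
            exact pow_le_pow_right₀ (by norm_num) (by omega)
        _ = (d * B * 2) ^ (k + 1) := by rw [← mul_pow]
        _ ≤ R ^ (k + 1) := pow_le_pow_left₀ (by positivity) hdBR _
        _ ≤ R ^ (δ + 1) := pow_le_pow_right₀ hR1 hi'
    have h3 : 0 ≤ 1 / s := by positivity
    refine mul_le_mul (mul_le_mul_of_nonneg_right h2 (by linarith)) hsε h3 (by positivity)
  -- the main term
  have e2 : |(d * B / s) ^ i * ((gm i : ℝ) * ((CP n p d).card * av fun z => φ z ^ 2) ^ (i / 2)) - gm i * (d * v) ^ (i / 2)| ≤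
      G * ((δ + 1) * R ^ (δ + 1) * (J * (B + B ^ 2 * (2 + 2 * J)))) * (1 / sp p) := by
    by_cases he : Even i
    · obtain ⟨k, hk⟩ := he
      have hk2 : i / 2 = k := by omega
      have hik : i = 2 * k := by omega
      rw [hk2]
      obtain ⟨x, hx⟩ : ∃ x : ℝ, x = NN n p d / sp p ^ (2 * n * d) := ⟨_, rfl⟩
      have hx0 : 0 ≤ x := by
        rw [hx]
        exact div_nonneg (NN_nonneg d) (by positivity)
      have hx2 : x ≤ 2 := by
        rw [hx, div_le_iff₀ (by positivity)]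
        exact NN_le d (by omega)
      have hx1 : |x - 1| ≤ (2 + 2 * J) * (1 / sp p) := by
        rw [hx]
        refine (NN_near (n := n) (p := p) hn d (by omega)).trans (mul_le_mul_of_nonneg_right ?_ hε0.le)
        linarith
      obtain ⟨σ, hσ⟩ : ∃ σ : ℝ, σ = av fun z => ψ z ^ 2 := ⟨_, rfl⟩
      have hσφ : (av fun z => φ z ^ 2) = σ / B ^ 2 := by
        have h1 : (fun z => φ z ^ 2) = fun z => (1 / B ^ 2) * ψ z ^ 2 := by
          rw [hφ]
          funext z
          ring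
        rw [h1, av_mul, ← hσ]
        ring
      have hσ00 : 0 ≤ σ := by
        rw [hσ]
        exact av_nonneg fun z => sq_nonneg _
      have hσB : σ ≤ B ^ 2 := by
        have h1 : (av fun z => φ z ^ 2) ≤ 1 := hσ1
        rw [hσφ, div_le_one (by positivity)] at h1
        exact h1
      have h2 : (d * B / s) ^ i * ((gm i : ℝ) * ((CP n p d).card * av fun z => φ z ^ 2) ^ k) = gm i * (d * σ * x) ^ k := by
        have h3 : ((d : ℝ) * B / s) ^ i = (d ^ 2 * B ^ 2 / s ^ 2) ^ k := by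
          rw [hik, pow_mul]
          congr 1
          ring
        have h4 : d ^ 2 * B ^ 2 / s ^ 2 * ((CP n p d).card * (σ / B ^ 2)) = d * σ * x := by
          rw [hx, NN_card]
          have h5 : sp p ^ (2 * n * d) = s ^ 2 := by
            rw [hs', ← pow_mul]
            congr 1
            ring
          rw [h5]
          have : s ≠ 0 := by linarith
          have : B ≠ 0 := by linarith
          field_simp
        rw [hσφ, h3, ← h4, mul_pow]
        ring
      rw [h2, ← mul_sub, abs_mul, abs_of_nonneg (Nat.cast_nonneg (α := ℝ) (gm i))]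
      have hd0 : (0 : ℝ) ≤ d := by linarith
      have b1 : |d * σ * x| ≤ R := by
        rw [abs_of_nonneg (by positivity), hR]
        have h3 : d * σ * x ≤ J * B ^ 2 * 2 := mul_le_mul (mul_le_mul hdJ hσB hσ00 hJ0) hx2 hx0 (by positivity)
        nlinarith
      have b2 : |d * v| ≤ R := by
        rw [abs_of_nonneg (by positivity), hR]
        have h3 : d * v ≤ J * B := mul_le_mul hdJ hvB hv0 hJ0
        nlinarith
      have b3 := pow_near (d * σ * x) (d * v) R hR1 b1 b2 k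
      have b4 : |d * σ * x - d * v| ≤ J * (B + B ^ 2 * (2 + 2 * J)) * (1 / sp p) := by
        have h3 : d * σ * x - d * v = d * ((σ - v) + σ * (x - 1)) := by ring
        rw [h3, abs_mul, abs_of_nonneg hd0, mul_assoc]
        refine mul_le_mul hdJ ?_ (abs_nonneg _) hJ0
        refine (abs_add_le _ _).trans ?_
        rw [abs_mul, abs_of_nonneg hσ00, add_mul]
        refine add_le_add (by rw [hσ]; exact hψ2) ?_
        rw [mul_assoc (B ^ 2)]
        exact mul_le_mul hσB hx1 (abs_nonneg _) (by positivity)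
      have b5 : (k : ℝ) * R ^ k ≤ (δ + 1) * R ^ (δ + 1) := by
        refine mul_le_mul ?_ (pow_le_pow_right₀ hR1 (by omega)) (by positivity) (by positivity)
        have : k ≤ δ + 1 := by omega
        exact_mod_cast this
      have b6 : |(d * σ * x) ^ k - (d * v) ^ k| ≤ (δ + 1) * R ^ (δ + 1) * (J * (B + B ^ 2 * (2 + 2 * J)) * (1 / sp p)) :=
        b3.trans (mul_le_mul b5 b4 (abs_nonneg _) (by positivity))
      refine (mul_le_mul (hGj i hi') b6 (abs_nonneg _) hG0).trans (le_of_eq ?_)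
      ring
    · have : gm i = 0 := Q285HS.gm_odd he
      rw [this]
      simp only [Nat.cast_zero, zero_mul, mul_zero, sub_self, abs_zero]
      positivity
  have h8 := abs_sub_le ((d * B / s) ^ i * av (fun c => sm (evd (δ := δ) d) (CP n p d) (fun _ => φ) c ^ i))
    ((d * B / s) ^ i * ((gm i : ℝ) * ((CP n p d).card * av fun z => φ z ^ 2) ^ (i / 2))) (gm i * (d * v) ^ (i / 2))
  rw [add_mul, add_mul, one_mul]
  linarith

end Pool.Agent.W2helper48.JV
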