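import Pool.Agent.W2helper48.JT.Gau

/-!
# Polarization; joint moments of several normal variables
-/

set_option autoImplicit false
set_option linter.unusedSectionVars false

namespace Pool.Agent.W2helper48.JV

open Finset MeasureTheory ProbabilityTheory
open Q282MM (gm)
open scoped NNReal

/-- **polarization** -/
lemma polar {ι : Type} [DecidableEq ι] (x : ι → ℝ) (s : Finset ι) : ∀ (m : ℕ) (y : ℝ), m ≤ s.card →
    ∑ T ∈ s.powerset, (-1) ^ T.card * (y + ∑ i ∈ s, (if i ∈ T then -1 else 1) * x i) ^ m =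
      if m = s.card then 2 ^ m * (m.factorial : ℝ) * ∏ i ∈ s, x i else 0 := by
  induction s using Finset.induction_on with
  | empty =>
    intro m y hm
    have hm0 : m = 0 := by simpa using hm
    subst hm0
    simp
  | insert a s ha ih =>
    intro m y hm
    rw [card_insert_of_notMem ha] at hm
    rw [sum_powerset_insert ha, ← sum_add_distrib]
    have h1 : ∀ T ∈ s.powerset, (-1 : ℝ) ^ T.card * (y + ∑ i ∈ insert a s, (if i ∈ T then -1 else 1) * x i) ^ m +
        (-1) ^ (insert a T).card * (y + ∑ i ∈ insert a s, (if i ∈ insert a T then -1 else 1) * x i) ^ m =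
        ∑ k ∈ range (m + 1), (x a ^ (m - k) * (m.choose k : ℝ) * (1 - (-1) ^ (m - k))) *
          ((-1) ^ T.card * (y + ∑ i ∈ s, (if i ∈ T then -1 else 1) * x i) ^ k) := by
      intro T hT
      rw [mem_powerset] at hT
      have haT : a ∉ T := fun h => ha (hT h)
      have e1 : ∑ i ∈ insert a s, (if i ∈ T then (-1 : ℝ) else 1) * x i = x a + ∑ i ∈ s, (if i ∈ T then -1 else 1) * x i := by
        rw [sum_insert ha, if_neg haT, one_mul]
      have e2 : ∑ i ∈ insert a s, (if i ∈ insert a T then (-1 : ℝ) else 1) * x i = -x a + ∑ i ∈ s, (if i ∈ T then -1 else 1) * x i := by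
        rw [sum_insert ha, if_pos (mem_insert_self a T), neg_one_mul]
        congr 1
        refine sum_congr rfl fun i hi => ?_
        have hia : i ≠ a := fun h => ha (h ▸ hi)
        simp only [mem_insert, hia, false_or]
      rw [e1, e2, card_insert_of_notMem haT]
      obtain ⟨u, hu⟩ : ∃ u : ℝ, u = y + ∑ i ∈ s, (if i ∈ T then -1 else 1) * x i := ⟨_, rfl⟩
      have e3 : y + (x a + ∑ i ∈ s, (if i ∈ T then -1 else 1) * x i) = u + x a := by
        rw [hu]
        ring
      have e4 : y + (-x a + ∑ i ∈ s, (if i ∈ T then -1 else 1) * x i) = u + -x a := by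
        rw [hu]
        ring
      rw [e3, e4, ← hu, add_pow, add_pow, mul_sum, mul_sum, ← sum_add_distrib]
      refine sum_congr rfl fun k _ => ?_
      rw [neg_pow (x a)]
      ring
    rw [sum_congr rfl h1, sum_comm]
    have h2 : ∀ k ∈ range (m + 1), ∑ T ∈ s.powerset, (x a ^ (m - k) * (m.choose k : ℝ) * (1 - (-1) ^ (m - k))) *
        ((-1) ^ T.card * (y + ∑ i ∈ s, (if i ∈ T then -1 else 1) * x i) ^ k) =
        if k + 1 = m ∧ m = s.card + 1 then 2 ^ m * (m.factorial : ℝ) * (x a * ∏ i ∈ s, x i) else 0 := by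
      intro k hk
      rw [mem_range] at hk
      rw [← mul_sum]
      by_cases hkm : k = m
      · subst hkm
        rw [if_neg (by omega)]
        simp
      · rw [ih k y (by omega)]
        by_cases hks : k = s.card
        · have hm' : m = s.card + 1 := by omega
          rw [if_pos hks, if_pos ⟨by omega, hm'⟩, hm', ← hks]
          have e1 : k + 1 - k = 1 := by omega
          rw [e1, Nat.choose_succ_self_right, Nat.factorial_succ]
          push_cast
          ring
        · rw [if_neg hks, mul_zero, if_neg (by omega)]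
    rw [sum_congr rfl h2]
    by_cases hm' : m = (insert a s).card
    · rw [if_pos hm', prod_insert ha]
      rw [card_insert_of_notMem ha] at hm'
      rw [sum_eq_single s.card]
      · rw [if_pos ⟨by omega, hm'⟩]
      · intro k _ hk
        rw [if_neg (by omega)]
      · intro h
        exact absurd (mem_range.2 (by omega)) h
    · rw [if_neg hm']
      rw [card_insert_of_notMem ha] at hm'
      refine sum_eq_zero fun k _ => ?_
      rw [if_neg (by omega)]

lemma polar' {ι : Type} [DecidableEq ι] (x : ι → ℝ) (s : Finset ι) :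
    ∏ i ∈ s, x i = (2 ^ s.card * (s.card.factorial : ℝ))⁻¹ * ∑ T ∈ s.powerset, (-1) ^ T.card * (∑ i ∈ s, (if i ∈ T then -1 else 1) * x i) ^ s.card := by
  have h := polar x s s.card 0 le_rfl
  rw [if_pos rfl] at h
  simp only [zero_add] at h
  rw [h]
  have : (2 : ℝ) ^ s.card * (s.card.factorial : ℝ) ≠ 0 := by positivity
  field_simp

/-! ### normal variables -/

lemma gauss_pow (v : ℝ≥0) (m : ℕ) : ∫ x, x ^ m ∂(gaussianReal 0 v) = (gm m : ℝ) * (v : ℝ) ^ (m / 2) := by
  have h1 : gaussianReal 0 v = (gaussianReal 0 1).map (fun x => Real.sqrt v * x) := by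
    have e1 := gaussianReal_map_const_mul (μ := 0) (v := 1) (Real.sqrt v)
    rw [e1, mul_zero, mul_one]
    congr 1
    apply NNReal.eq
    show (v : ℝ) = Real.sqrt v ^ 2
    rw [Real.sq_sqrt (NNReal.coe_nonneg v)]
  rw [h1, integral_map (by fun_prop) (by fun_prop)]
  simp only [mul_pow]
  rw [integral_const_mul, JT.gauss_std]
  by_cases hm : Even m
  · obtain ⟨k, hk⟩ := hm
    have h2 : m / 2 = k := by omega
    have h3 : m = 2 * k := by omega
    have h4 : Real.sqrt v ^ m = (v : ℝ) ^ k := by rw [h3, pow_mul, Real.sq_sqrt (NNReal.coe_nonneg v)]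
    rw [h2, h4]
    ring
  · have : gm m = 0 := Q285HS.gm_odd hm
    rw [this]
    simp

/-- the law of a linear combination of independent normal variables -/
lemma gsum_law {Θ : Type} [Fintype Θ] [DecidableEq Θ] (V : Θ → ℝ≥0) (c : Θ → ℝ) (s : Finset Θ) :
    (Measure.pi fun θ => gaussianReal 0 (V θ)).map (fun x : Θ → ℝ => ∑ θ ∈ s, c θ * x θ) = gaussianReal 0 (∑ θ ∈ s, NNReal.mk (c θ ^ 2) (sq_nonneg _) * V θ) := by
  have hind : iIndepFun (fun (θ : Θ) (x : Θ → ℝ) => c θ * x θ) (Measure.pi fun θ => gaussianReal 0 (V θ)) := by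
    exact iIndepFun_pi (μ := fun θ => gaussianReal 0 (V θ)) (X := fun θ (y : ℝ) => c θ * y) fun θ => by fun_prop
  have hone : ∀ θ : Θ, (Measure.pi fun θ => gaussianReal 0 (V θ)).map (fun x : Θ → ℝ => c θ * x θ) =
      gaussianReal 0 (NNReal.mk (c θ ^ 2) (sq_nonneg _) * V θ) := by
    intro θ
    have h1 : (fun x : Θ → ℝ => c θ * x θ) = (fun y : ℝ => c θ * y) ∘ (Function.eval θ) := rfl
    rw [h1, ← Measure.map_map (by fun_prop) (by fun_prop)]
    rw [(measurePreserving_eval (fun θ => gaussianReal 0 (V θ)) θ).map_eq, gaussianReal_map_const_mul, mul_zero]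
  induction s using Finset.induction_on with
  | empty =>
    simp only [sum_empty]
    rw [Measure.map_const, measure_univ, one_smul, gaussianReal_zero_var]
  | insert a s ha ih =>
    have h1 : (fun x : Θ → ℝ => ∑ θ ∈ insert a s, c θ * x θ) = (fun x => c a * x a) + (fun x => ∑ θ ∈ s, c θ * x θ) := by
      funext x
      rw [sum_insert ha]
      rfl
    have h2 : IndepFun (fun x : Θ → ℝ => c a * x a) (fun x => ∑ θ ∈ s, c θ * x θ) (Measure.pi fun θ => gaussianReal 0 (V θ)) := by
      have h3 := (hind.indepFun_finsetSum_of_notMem (fun θ => by fun_prop) ha).symm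
      have h4 : (∑ θ ∈ s, fun x : Θ → ℝ => c θ * x θ) = fun x => ∑ θ ∈ s, c θ * x θ := by
        funext x
        rw [Finset.sum_apply]
      rwa [h4] at h3
    rw [h1, gaussianReal_add_gaussianReal_of_indepFun h2 (hone a) ih, sum_insert ha, add_zero]

/-- **the moments of a linear combination** -/
theorem gsum {Θ : Type} [Fintype Θ] [DecidableEq Θ] (V : Θ → ℝ≥0) (c : Θ → ℝ) (m : ℕ) :
    ∫ x : Θ → ℝ, (∑ θ, c θ * x θ) ^ m ∂(Measure.pi fun θ => gaussianReal 0 (V θ)) = (gm m : ℝ) * (∑ θ, c θ ^ 2 * (V θ : ℝ)) ^ (m / 2) := by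
  have h1 : ∫ x : Θ → ℝ, (∑ θ, c θ * x θ) ^ m ∂(Measure.pi fun θ => gaussianReal 0 (V θ)) =
      ∫ y, y ^ m ∂((Measure.pi fun θ => gaussianReal 0 (V θ)).map (fun x : Θ → ℝ => ∑ θ, c θ * x θ)) := by
    have hm : Measurable fun x : Θ → ℝ => ∑ θ, c θ * x θ :=
      Finset.measurable_sum _ fun θ _ => by
        have h := (measurable_pi_apply (X := fun _ : Θ => ℝ) θ).const_mul (c θ)
        exact h
    rw [integral_map hm.aemeasurable (by fun_prop)]
  rw [h1, gsum_law, gauss_pow]
  congr 2
  push_cast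
  rfl

end Pool.Agent.W2helper48.JV
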